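import Pool.Agent.Helper32.OIP.Defs

/-!
# Goals of the project OIP (MP_fc0446_an, polynomial non-locality)

Theorem: if `Φ` is a measure-preserving, almost everywhere injective orbit isometry between the
Bernoulli shifts of `F_d` and of `Γ = (ℤ/2)^{*2d}` (in either direction), then every measurable
guess of radius `k ≥ 2` for `x ↦ (Φ(x)(1), (s ↦ the t with Φ(s x) = t Φ(x)))` is wrong with
probability at least `c / (k log k)^2`.

Idea. Work with `Φ : X_A → X_B`, `Ψ = Φ⁻¹`. Resample the `B`-labels with a small probability, and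
compare the two `A`-structures on the same tree: at each vertex they differ by a permutation `π` of
the directions `D` of `A` (`n = |D| = 2d`), and `π` is a factor of an iid process over `A`. For
such processes the entropy inequality `(E)`: `2 H(π) ≥ ∑ s, H(π(s))` holds (edge version of the
edge-vertex inequality for factors of iid). If `δ = P(π ≠ 1)` is small this forces
`P(π is neither 1 nor a transposition) ≤ C δ^{3/2}`. At a transposition `(s t)` the structure is
rigid: the neighbour in direction `s` has `π` either the transposition `(s⁻¹ t⁻¹)` or a branching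
permutation. So with probability at least `c δ` there is a straight run of length `c δ^{-1/2}` from
the root on which `π ≠ 1`. But wherever `π ≠ 1`, a fixed local approximation of the structure map is
wrong for one of the two configurations; if `Φ` had a good local guess of radius `r`, these events
would be almost independent at distance `> 2r`, and long runs would be exponentially unlikely.

Every goal below is a `Prop`; other goals which may be used are hypotheses of the goal.
-/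

open MeasureTheory
open scoped ENNReal

namespace Pool.Agent.Helper32.OIP

open Pool.Agent.Helper58.Orb

/-! ### Measure theory of `pm A ν` -/

/-- **MA1.** Proof: `infinitePi_map_pi` for the first claim; for the second (reindexing by a
bijection `e : B → A`) use `Measure.eq_infinitePi` (or `infinitePi_map_piCongrLeft` with
`Equiv.ofBijective`, or `map_infinitePi_infinitePi_of_inj` in
`Mathlib/Probability/Independence/InfinitePi.lean`); the third is the second with
`e h = g⁻¹ * h`. -/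
def GoalMA1 : Prop :=
  (∀ (A E E' : Type) [MeasurableSpace E] [MeasurableSpace E'] (ν : Measure E) (ν' : Measure E')
      [IsProbabilityMeasure ν] [IsProbabilityMeasure ν'] (f : A → E → E'),
      (∀ a, MeasurePreserving (f a) ν ν') →
        MeasurePreserving (fun (z : A → E) (a : A) => f a (z a)) (pm A ν) (pm A ν')) ∧
  (∀ (A B E : Type) [MeasurableSpace E] (ν : Measure E) [IsProbabilityMeasure ν] (e : B → A),
      Function.Bijective e →
        MeasurePreserving (fun (z : A → E) (b : B) => z (e b)) (pm A ν) (pm B ν)) ∧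
  (∀ (A E : Type) [Group A] [MeasurableSpace E] (ν : Measure E) [IsProbabilityMeasure ν] (g : A),
      MeasurePreserving (sh g : (A → E) → (A → E)) (pm A ν) (pm A ν))

/-- **MA2.** Proof: the first two claims by `Measure.eq_infinitePi` (for the first: the preimage of
a box `Set.pi s t` is a set on which one can compute by approximating... simpler: prove the second
claim first, `z ↦ (fst ∘ z, snd ∘ z)`, by showing that the image measure of `pm A (ν.prod ν')` is
the product measure: both are probability measures which agree on the `π`-system of products of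
boxes; then the first claim follows, since the two maps are inverse to each other and measurable.)
Third claim (`glue`): first claim with `ν' = ν`, followed by MA1 (coordinatewise map
`f a = if a ∈ T then Prod.fst else Prod.snd`, both measure-preserving `ν.prod ν → ν`). Fourth claim:
as in `Pool.Agent.Helper58.Orb.map_upd`. -/
def GoalMA2 : Prop :=
  (∀ (A E E' : Type) [MeasurableSpace E] [MeasurableSpace E'] (ν : Measure E) (ν' : Measure E')
      [IsProbabilityMeasure ν] [IsProbabilityMeasure ν'],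
      MeasurePreserving (fun (p : (A → E) × (A → E')) (a : A) => (p.1 a, p.2 a))
        ((pm A ν).prod (pm A ν')) (pm A (ν.prod ν'))) ∧
  (∀ (A E E' : Type) [MeasurableSpace E] [MeasurableSpace E'] (ν : Measure E) (ν' : Measure E')
      [IsProbabilityMeasure ν] [IsProbabilityMeasure ν'],
      MeasurePreserving (fun (z : A → E × E') => ((fun a => (z a).1), (fun a => (z a).2)))
        (pm A (ν.prod ν')) ((pm A ν).prod (pm A ν'))) ∧
  (∀ (A E : Type) [MeasurableSpace E] (ν : Measure E) [IsProbabilityMeasure ν] (T : Set A),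
      MeasurePreserving (fun (p : (A → E) × (A → E)) => glue T p.1 p.2)
        ((pm A ν).prod (pm A ν)) (pm A ν)) ∧
  (∀ (A E : Type) [DecidableEq A] [MeasurableSpace E] (ν : Measure E) [IsProbabilityMeasure ν]
      (j : A), MeasurePreserving (fun (p : (A → E) × E) => Function.update p.1 j p.2)
        ((pm A ν).prod ν) (pm A ν))

/-- **MA3** (independence). Proof: induction on `s`. For the step let `W₁ = W i₀`,
`W₂ = ⋃ i ∈ s, W i` (disjoint from `W₁`), `G₁ = G i₀`, `G₂ = ⋂ i ∈ s, G i` (depends on `W₂`). By the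
third claim of MA2 with `T = W₁`, `μ(G₁ ∩ G₂) = (μ × μ){(z, w) : glue W₁ z w ∈ G₁ ∩ G₂}`; since
`glue W₁ z w = z` on `W₁` and `= w` on `W₂`, the set is `G₁ ×ˢ G₂`. -/
def GoalMA3 : Prop :=
  GoalMA2 →
  ∀ (A E ι : Type) [DecidableEq ι] [MeasurableSpace E] (ν : Measure E) [IsProbabilityMeasure ν]
    (W : ι → Set A) (G : ι → Set (A → E)) (s : Finset ι),
    (∀ i ∈ s, ∀ j ∈ s, i ≠ j → Disjoint (W i) (W j)) → (∀ i ∈ s, MeasurableSet (G i)) →
    (∀ i ∈ s, DependsOn (fun z => z ∈ G i) (W i)) →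
      (pm A ν).real (⋂ i ∈ s, G i) = ∏ i ∈ s, (pm A ν).real (G i)

/-- **MA4** (local approximation). Proof: the sets `G` such that for every `ε > 0` there are a finite
`W` and a measurable `G'` depending on `W` with `μ(G ∆ G') ≤ ε` contain the sets
`{z | z a ∈ B}` and are closed under complements and countable unions (`MeasurableSpace.induction_on_inter`
with the boxes, or `MeasurableSet` induction on `generateFrom`; for a countable union first
approximate by a finite union); so all measurable sets are in it. For `X`, choose `G'_m` for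
`{X = m}` with error `ε / |M|²` or so and let `X' z` be the first `m` (in an enumeration of `M`) with
`z ∈ G'_m`, and a fixed value if there is none; `{X' ≠ X} ⊆ ⋃ m, {X = m} ∆ G'_m`. -/
def GoalMA4 : Prop :=
  ∀ (A E M : Type) [MeasurableSpace E] [Fintype M] (ν : Measure E) [IsProbabilityMeasure ν]
    (X : (A → E) → M), (∀ m, MeasurableSet {z | X z = m}) → ∀ ε : ℝ, 0 < ε →
    ∃ (W : Finset A) (X' : (A → E) → M), (∀ m, MeasurableSet {z | X' z = m}) ∧
      DependsOn X' (W : Set A) ∧ (pm A ν).real {z | X' z ≠ X z} ≤ ε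

/-! ### Entropy -/

/-- **E1** (concavity of `p ↦ H(p) - H(φ_* p)`). Proof: the function is a sum over `m'` of
`g(p) = ∑_{m ∈ B} η(p_m) - η(∑_{m ∈ B} p_m)`, `B = φ⁻¹(m')`, `η = negMulLog`, so it is enough to
prove that each such `g` is concave on the orthant. `g(c p) = c g(p)` for `c ≥ 0` (as
`η(c x) = c η(x) + x η(c)`), so it is enough to prove `g(p + q) ≥ g(p) + g(q)`. Let `r = p + q`,
`P = ∑_B p`, `Q = ∑_B q`, `R = P + Q`. Then
`g(p+q) - g(p) - g(q) = ∑_B [p_m log(p_m / r_m) + q_m log(q_m / r_m)] - P log(P/R) - Q log(Q/R)`,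
and `∑_B p_m log(p_m/r_m) ≥ P log(P/R)`: if `P = 0` both sides are `0`; otherwise
`p_m log(p_m / r_m) - p_m log(P/R) = p_m log(p_m / r'_m) ≥ p_m - r'_m` with `r'_m = r_m P / R`
(`log u ≥ 1 - 1/u`; terms with `p_m = 0` are `0 ≥ - r'_m`), and `∑_B (p_m - r'_m) = P - P = 0`.
Same for `q`. -/
def GoalE1 : Prop :=
  ∀ (M M' : Type) [Fintype M] [Fintype M'] [DecidableEq M'] (φ : M → M'),
    ConcaveOn ℝ {p : M → ℝ | ∀ m, 0 ≤ p m} (fun p => ∑ m, Real.negMulLog (p m) -
      ∑ m', Real.negMulLog (∑ m ∈ Finset.univ.filter (fun m => φ m = m'), p m))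

/-- **E2.** Proof. Write `μ = pm A ν`, `P_T(z, m) = cp μ X T z m`, `Λ` for the function of E1
(continuous and concave on the closed convex set of nonnegative vectors). As
`cp μ (φ ∘ X) T z m' = ∑_{φ m = m'} P_T(z, m)`, we have
`hc μ X T - hc μ (φ ∘ X) T = ∫ Λ(P_T(z, ·)) dμ(z)` (all integrands are bounded and measurable:
`(z, w) ↦ glue T z w` is measurable, so `z ↦ P_T(z, m)` is measurable,
`measurable_measure_prodMk_left`). For `j ∉ T`, by the fourth claim of MA2 (update at `j`) and Fubini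
`P_T(z, m) = ∫ P_{T ∪ j}(z[j ↦ e], m) dν(e)`, because
`glue (insert j T) (z[j ↦ e]) w = glue T z (w[j ↦ e])`. By Jensen's inequality
(`ConcaveOn.le_map_integral`) `Λ(P_T(z, ·)) ≥ ∫ Λ(P_{T ∪ j}(z[j ↦ e], ·)) dν(e)`; integrate over `z`
and use the measure-preserving map `(z, e) ↦ z[j ↦ e]` again: the right hand side becomes
`∫ Λ(P_{T ∪ j}(z, ·)) dμ(z)`. -/
def GoalE2 : Prop :=
  GoalE1 → GoalMA2 →
  ∀ (A E M M' : Type) [MeasurableSpace E] [Fintype M] [Fintype M'] (ν : Measure E)
    [IsProbabilityMeasure ν] (X : (A → E) → M) (φ : M → M') (T : Set A) (j : A),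
    (∀ m, MeasurableSet {z | X z = m}) → j ∉ T →
      hc (pm A ν) (fun z => φ (X z)) T - hc (pm A ν) (fun z => φ (X z)) (insert j T) ≤
        hc (pm A ν) X T - hc (pm A ν) X (insert j T)

/-- **E3.** Proof: `glue ∅ z w = w`; if `X` depends only on `W ⊆ T` then `X (glue T z w) = X z`, so
that `cp` is `0` or `1` and `negMulLog` of it vanishes; if `X` depends only on `W`, then
`X (glue T z w) = X (glue (T ∩ W) z w)`. The last claim: `{w | X (sh g (glue T z w)) = m}` is the
preimage under the measure-preserving map `sh g` (MA1) of `{w' | X (glue (g T) (sh g z) w') = m}`,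
as `sh g (glue T z w) = glue (g T) (sh g z) (sh g w)`; then use that `sh g` is measure-preserving
once more, in the outer integral. -/
def GoalE3 : Prop :=
  GoalMA1 → GoalMA2 →
  ∀ (A E M : Type) [Group A] [MeasurableSpace E] [Fintype M] (ν : Measure E)
    [IsProbabilityMeasure ν] (X : (A → E) → M), (∀ m, MeasurableSet {z | X z = m}) →
    (hc (pm A ν) X ∅ = Ent (pm A ν) X) ∧
    (∀ W T : Set A, DependsOn X W → W ⊆ T → hc (pm A ν) X T = 0) ∧
    (∀ W T : Set A, DependsOn X W → hc (pm A ν) X T = hc (pm A ν) X (T ∩ W)) ∧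
    (∀ (g : A) (T : Set A),
      hc (pm A ν) (fun z => X (sh g z)) T = hc (pm A ν) X ((fun a => g * a) '' T))

/-- **E4** (random order; statement about a set function). Proof: the family of sets
`{i | U i < U j} ∩ W` takes finitely many values as `U` varies, each on a measurable set (a finite
intersection of the sets `{U i < U j}` and their complements, `i ∈ W`), so that
`U ↦ h {i | U i < U j} = h ({i | U i < U j} ∩ W)` is a bounded measurable function (write it as a sum
over `V ∈ W.powerset` of indicators); the same for `≤`. For almost every `U` the numbers `U i` are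
distinct (`Helper58.Orb.coord_ne`, countably many pairs): this is the last claim
(`i = j` or `U i < U j`). For such `U` and every finite `s ⊆ A`,
`∑ j ∈ s, (h (s ∩ {i | U i < U j}) - h (s ∩ {i | U i ≤ U j})) = h ∅ - h s` by
`Finset.induction_on_max_value U` (for `s = insert a s'` with `U a` maximal: for `j ∈ s'` the sets do
not change, as `U j < U a`; for `j = a` the term is `h s' - h s`). With `s = W` this is the second
claim after integration (`integral_finset_sum`). For `j ∉ W` the sets `{i | U i < U j}` and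
`{i | U i ≤ U j}` have the same intersection with `W`. -/
def GoalE4 : Prop :=
  ∀ (A : Type) [Countable A] (W : Finset A) (h : Set A → ℝ), (∀ T, h T = h (T ∩ (W : Set A))) →
    (∀ j, Integrable (fun U : Bern A => h {i | U i < U j} - h {i | U i ≤ U j}) (bern A)) ∧
    (∑ j ∈ W, ∫ U, (h {i | U i < U j} - h {i | U i ≤ U j}) ∂(bern A) = h ∅ - h (W : Set A)) ∧
    (∀ j ∉ W, ∫ U, (h {i | U i < U j} - h {i | U i ≤ U j}) ∂(bern A) = 0) ∧
    (∀ j, ∀ᵐ U ∂(bern A), {i | U i ≤ U j} = insert j {i | U i < U j})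

/-- **E5** (averaging over a random order). Let `h T = hc (pm A ν) X T = h (T ∩ W)` (E3), so E4
applies to `h`, and `FX X j` is the integral in E4.
(a) `0 ≤ FX X j`: by E4 almost surely `{i | U i ≤ U j} = insert j {i | U i < U j}` with
`j ∉ {i | U i < U j}`, so the integrand is `≥ 0` by E2 with `φ : M → Unit` (`hc` of a constant
function is `0`: `cp = 1`).
(b) `∑ j ∈ W, FX X j = h ∅ - h W = Ent X - 0` by E4 and E3.
(c) `FX X j = 0` for `j ∉ W`: E4.
(d) By E3, `hc (X ∘ sh g) {i | U i < U j} = hc X {i | U (g⁻¹ i) < U j} = hc X {i | U' i < U' (g j)}`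
with `U' = shift g U`, same for `≤`; then use invariance of `bern A`
(`Helper58.Orb.measurePreserving_shift`; change of variables with the integrability in E4).
(e) E2 for almost every `U` (as in (a)), and integrate (`integral_mono_ae`, E4). -/
def GoalE5 : Prop :=
  GoalE4 → GoalE2 → GoalE1 → GoalMA1 → GoalMA2 → GoalE3 →
  ∀ (A E M : Type) [Group A] [Countable A] [MeasurableSpace E] [Fintype M] (ν : Measure E)
    [IsProbabilityMeasure ν] (X : (A → E) → M) (W : Finset A),
    (∀ m, MeasurableSet {z | X z = m}) → DependsOn X (W : Set A) →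
    (∀ j, 0 ≤ FX (pm A ν) X j) ∧
    (∑ j ∈ W, FX (pm A ν) X j = Ent (pm A ν) X) ∧
    (∀ j ∉ W, FX (pm A ν) X j = 0) ∧
    (∀ g j, FX (pm A ν) (fun z => X (sh g z)) j = FX (pm A ν) X (g * j)) ∧
    (∀ (M' : Type) [Fintype M'] (φ : M → M') (j : A),
      FX (pm A ν) (fun z => φ (X z)) j ≤ FX (pm A ν) X j)

/-- **E6** (combinatorics of the tree). Proof. Let
`U = {(s, j) : len j + 1 ≤ len (dir s * j)}` and `U' = {(s, j) : (inv s, dir s * j) ∈ U}`, i.e.
`len (dir s * j) + 1 ≤ len j`; they are disjoint, and `(s, j) ↦ (inv s, dir s * j)` is an involution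
exchanging them. So
`∑_{s, j} max (f j) (f (dir s * j)) ≥ ∑_U f j + ∑_{U'} f (dir s * j) = 2 ∑_U f j`
(sums over all pairs with finitely many nonzero terms), and for each `j` there is at most one `s`
with `(s, j) ∉ U` (`TreeData.up`), so `∑_U f j ≥ (card D - 1) ∑_j f j`. (The finite set `V` contains
all `j` for which a summand can be nonzero.) -/
def GoalE6 : Prop :=
  ∀ (A : Type) [Group A] (S : Set A) (D : Type) [Fintype D] (T : TreeData A S D) (f : A → ℝ)
    (V : Finset A), (∀ j, 0 ≤ f j) → (∀ j ∉ V, f j = 0) → (∀ j ∉ V, ∀ s, f (T.dir s * j) = 0) →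
      2 * ((Fintype.card D : ℝ) - 1) * ∑ j ∈ V, f j ≤ ∑ s, ∑ j ∈ V, max (f j) (f (T.dir s * j))

/-- **E7** (edge-vertex inequality for local functions). Proof: let `f = FX (pm A ν) X`, finitely
supported in `W`. For `s : D` let `X_s z = X (sh (dir s) z)` and `Y_s = (X, X_s)`, a function
depending on the finite set `W ∪ (dir s)⁻¹ W`. By E5, applied to `Y_s`,
`Ent (Y_s) = ∑_j FX Y_s j`, and `FX Y_s j ≥ FX X j = f j`, `FX Y_s j ≥ FX X_s j = f (dir s * j)`. So
`∑_s Ent (Y_s) ≥ ∑_s ∑_j max (f j) (f (dir s * j)) ≥ 2 (card D - 1) ∑_j f j = 2 (card D - 1) Ent X`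
by E6. -/
def GoalE7 : Prop :=
  GoalE6 →
  (∀ (A E M : Type) [Group A] [Countable A] [MeasurableSpace E] [Fintype M] (ν : Measure E)
    [IsProbabilityMeasure ν] (X : (A → E) → M) (W : Finset A),
    (∀ m, MeasurableSet {z | X z = m}) → DependsOn X (W : Set A) →
    (∀ j, 0 ≤ FX (pm A ν) X j) ∧
    (∑ j ∈ W, FX (pm A ν) X j = Ent (pm A ν) X) ∧
    (∀ j ∉ W, FX (pm A ν) X j = 0) ∧
    (∀ g j, FX (pm A ν) (fun z => X (sh g z)) j = FX (pm A ν) X (g * j)) ∧
    (∀ (M' : Type) [Fintype M'] (φ : M → M') (j : A),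
      FX (pm A ν) (fun z => φ (X z)) j ≤ FX (pm A ν) X j)) →
  ∀ (A E M : Type) [Group A] [Countable A] [MeasurableSpace E] [Fintype M] (S : Set A) (D : Type)
    [Fintype D] (T : TreeData A S D) (ν : Measure E) [IsProbabilityMeasure ν]
    (X : (A → E) → M) (W : Finset A),
    (∀ m, MeasurableSet {z | X z = m}) → DependsOn X (W : Set A) →
      2 * ((Fintype.card D : ℝ) - 1) * Ent (pm A ν) X ≤
        ∑ s, Ent (pm A ν) (fun z => (X z, X (sh (T.dir s) z)))

/-- **E8** (edge-vertex inequality). Proof: choose local `X_k` with `μ(X_k ≠ X) ≤ 1/(k+1)` (MA4).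
Then `μ((X_k, X_k ∘ sh g) ≠ (X, X ∘ sh g)) ≤ 2/(k+1)` by invariance (MA1), so all the probabilities
`μ(X_k = m)` and `μ((X_k, X_k ∘ sh g) = (m, m'))` converge, and `negMulLog` is continuous: pass to
the limit in the inequality for `X_k`. -/
def GoalE8 : Prop :=
  GoalMA1 → GoalMA4 →
  (∀ (A E M : Type) [Group A] [Countable A] [MeasurableSpace E] [Fintype M] (S : Set A) (D : Type)
    [Fintype D] (T : TreeData A S D) (ν : Measure E) [IsProbabilityMeasure ν]
    (X : (A → E) → M) (W : Finset A),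
    (∀ m, MeasurableSet {z | X z = m}) → DependsOn X (W : Set A) →
      2 * ((Fintype.card D : ℝ) - 1) * Ent (pm A ν) X ≤
        ∑ s, Ent (pm A ν) (fun z => (X z, X (sh (T.dir s) z)))) →
  ∀ (A E M : Type) [Group A] [Countable A] [MeasurableSpace E] [Fintype M] (S : Set A) (D : Type)
    [Fintype D] (T : TreeData A S D) (ν : Measure E) [IsProbabilityMeasure ν]
    (X : (A → E) → M), (∀ m, MeasurableSet {z | X z = m}) →
      2 * ((Fintype.card D : ℝ) - 1) * Ent (pm A ν) X ≤
        ∑ s, Ent (pm A ν) (fun z => (X z, X (sh (T.dir s) z)))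

/-- **E9.** Proof: let `p(m, m')` be the law of `(X, X')`, `a(m)`, `b(m')` the marginals, `c(y)` the
law of `Y`. We may replace `Y` by `f ∘ X` (a.e. equal), and `p(m, m') = 0` unless `f m = g m'`. The
claim is `∑ p log p - ∑ a log a - ∑ b log b + ∑ c log c ≥ 0`, i.e.
`∑_{m, m'} p(m, m') log (p(m, m') c(f m) / (a(m) b(m'))) ≥ 0`, the sum over the pairs with
`p(m, m') > 0` (then `a, b, c > 0`). With `q(m, m') = a(m) b(m') / c(f m)` for `f m = g m'` (and
`c(f m) > 0`), `0` otherwise, each term is `≥ p - q` (`log u ≥ 1 - 1/u`), `∑ p = 1` and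
`∑ q = ∑_y (∑_{f m = y} a(m)) (∑_{g m' = y} b(m')) / c(y) = ∑_y c(y) = 1`. -/
def GoalE9 : Prop :=
  ∀ (Ω M M' M'' : Type) [MeasurableSpace Ω] [Fintype M] [Fintype M'] [Fintype M'']
    (μ : Measure Ω) [IsProbabilityMeasure μ] (X : Ω → M) (X' : Ω → M') (Y : Ω → M'')
    (f : M → M'') (g : M' → M''),
    (∀ m, MeasurableSet {ω | X ω = m}) → (∀ m, MeasurableSet {ω | X' ω = m}) →
    (∀ᵐ ω ∂μ, Y ω = f (X ω)) → (∀ᵐ ω ∂μ, Y ω = g (X' ω)) →
      Ent μ (fun ω => (X ω, X' ω)) ≤ Ent μ X + Ent μ X' - Ent μ Y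

open Classical in
/-- **E10** (few branching permutations). Let `n = card D`, `N = n!`, `δ = 1 - p 1`,
`ρ = ∑_{Br} p σ`, `η = negMulLog`, `p_{st} = p (swap s t)`, `r_{st} = ∑_{Br σ, σ s = t} p σ` for
`s ≠ t`, `q_{st} = p_{st} + r_{st} = ∑_{σ s = t} p σ` (a transposition with `σ s = t ≠ s` is
`swap s t`), `q_s = ∑_{t ≠ s} q_{st} ≤ δ`, `∑_{σ s = s} p σ = 1 - q_s`. If `δ > 1/e` then
`ρ ≤ 1 ≤ e^{3/2} δ^{3/2}`; if `δ = 0` trivial. Let `0 < δ ≤ 1/e`.
Left side: `∑ η(p σ) ≤ η(1 - δ) + ∑_{swaps} η(p_{st}) + η(ρ) + ρ log N` (the entropy of at most `N`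
numbers with sum `ρ` is at most `η(ρ) + ρ log N`, concavity of `η`), and `η(1 - δ) ≤ δ`.
Right side: `(1/2) ∑_s η(1 - q_s) ≥ (1/2) ∑_s (q_s - q_s²) ≥ δ + ρ/2 - n δ²/2`, as
`η(1 - q) ≥ q (1 - q)` and `∑_s q_s = ∑_σ p σ |supp σ| ≥ 2 (δ - ρ) + 3 ρ`. And
`η(q) - η(p) ≥ (q - p)(- log δ - 1)` for `0 ≤ p ≤ q ≤ δ`, so that
`(1/2) ∑_{s ≠ t} η(q_{st}) ≥ (1/2) ∑_{s ≠ t} η(p_{st}) + (3/2) ρ (log(1/δ) - 1)`, because
`∑_{s ≠ t} r_{st} ≥ 3 ρ`; and `(1/2) ∑_{s ≠ t} η(p_{st}) = ∑_{swaps} η(p_{st})`.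
The hypothesis gives
`0 ≤ δ + η(ρ) + ρ log N - δ - ρ/2 + n δ²/2 - (3/2) ρ log(1/δ) + (3/2) ρ
   = ρ (1 + log N - log ρ + (3/2) log δ) + n δ²/2`.
If `ρ > e² N δ^{3/2}` then the bracket is `≤ -1`, so `ρ ≤ n δ²/2`, and `e² N δ^{3/2} < n δ²/2`
contradicts `N ≥ n`, `δ ≤ 1` (for `n ≥ 1`; if `n = 0` then `ρ = 0`). -/
def GoalE10 : Prop :=
  ∀ (D : Type) [Fintype D] [DecidableEq D] (p : Equiv.Perm D → ℝ),
    (∀ σ, 0 ≤ p σ) → (∑ σ, p σ = 1) →
    (∑ s, ∑ t, Real.negMulLog (∑ σ ∈ Finset.univ.filter (fun σ : Equiv.Perm D => σ s = t), p σ)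
      ≤ 2 * ∑ σ, Real.negMulLog (p σ)) →
      ∑ σ ∈ Finset.univ.filter (fun σ : Equiv.Perm D => σ ≠ 1 ∧ ¬ σ.IsSwap), p σ ≤
        Real.exp 2 * (Fintype.card D).factorial * (1 - p 1) ^ (3 / 2 : ℝ)

/-- **E11.** Proof: `X = π`, `X_s = π ∘ sh (dir s)`, same entropy as `X` (MA1), and
`Y_s z = π z s` is a function of `X` and, almost everywhere, of `X_s`:
`π z s = inv (X_s z (inv s))` (`TreeData.inv_inv`). By E9,
`Ent (X, X_s) ≤ 2 Ent X - Ent Y_s`, and by E8 `2 (n - 1) Ent X ≤ ∑_s (2 Ent X - Ent Y_s)`, i.e.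
`∑_s Ent Y_s ≤ 2 Ent X`: the hypothesis of E10 for `p σ = μ(π = σ)`. -/
def GoalE11 : Prop :=
  GoalMA1 → GoalE9 → GoalE10 →
  (∀ (A E M : Type) [Group A] [Countable A] [MeasurableSpace E] [Fintype M] (S : Set A) (D : Type)
    [Fintype D] (T : TreeData A S D) (ν : Measure E) [IsProbabilityMeasure ν]
    (X : (A → E) → M), (∀ m, MeasurableSet {z | X z = m}) →
      2 * ((Fintype.card D : ℝ) - 1) * Ent (pm A ν) X ≤
        ∑ s, Ent (pm A ν) (fun z => (X z, X (sh (T.dir s) z)))) →
  ∀ (A E : Type) [Group A] [Countable A] [MeasurableSpace E] (S : Set A) (D : Type)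
    [Fintype D] [DecidableEq D] (T : TreeData A S D) (ν : Measure E) [IsProbabilityMeasure ν]
    (π : (A → E) → Equiv.Perm D), (∀ σ, MeasurableSet {z | π z = σ}) →
    (∀ᵐ z ∂(pm A ν), ∀ s, π (sh (T.dir s) z) (T.inv s) = T.inv (π z s)) →
      (pm A ν).real {z | Br (π z)} ≤ Real.exp 2 * (Fintype.card D).factorial *
        ((pm A ν).real {z | π z ≠ 1}) ^ (3 / 2 : ℝ)

/-! ### Runs and large deviations -/

/-- **R0** (the alternating words are reduced). Proof: `len (gw k) = k` by induction: for `k ≥ 1`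
write `gw k = dir u * gw (k-1)` with `u = s` or `inv t`, and the next letter is `u' = inv t` or `s`;
`u' ≠ inv u` because `s ≠ t`; `dir (inv u) * gw k = gw (k-1)` has length `k - 1 < k`, so
`TreeData.up` gives `len (dir u' * gw k) ≥ k + 1`, and `≤ k + 1` by `len_mul_le`. For `j ≤ i`,
`gw i * (gw j)⁻¹` is the product of the letters number `j+1, …, i`, which is the word of length
`i - j` of the same kind starting with `s` (`j` even) or with `inv t` (`j` odd; this is the word
`gw T (inv t) (inv s) (i - j)`). Also `len x⁻¹ = len x` and `len (x y) ≤ len x + len y` by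
`TreeData.exists_list`, `len_le_of_list`. -/
def GoalR0 : Prop :=
  ∀ (A : Type) [Group A] (S : Set A) (D : Type) (T : TreeData A S D),
    (∀ (s t : D), s ≠ t → ∀ i j : ℕ, j ≤ i → T.len (gw T s t i * (gw T s t j)⁻¹) = i - j) ∧
    (∀ x : A, T.len x⁻¹ = T.len x) ∧ (∀ x y : A, T.len (x * y) ≤ T.len x + T.len y)

/-- **R1** (long runs). Proof. Let `z_i = sh (gw T s t i) z`, `u_i = s` for `i` even and `inv t` for
`i` odd, so that `z_{i+1} = sh (dir u_i) z_i` (`sh g (sh h z) = sh (g * h) z`). Let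
`ρ_i = swap s t` for `i` even, `swap (inv s) (inv t)` for `i` odd, and
`E_k = {z | ∀ i ≤ k, π z_i = ρ_i}`. For almost every `z` the edge relation and the relation for `J`
hold at all `sh g z`, `g` in the countable group `A` (MA1). For such `z ∈ E_k` the edge relation at
`z_k` gives: `k` even: `π z_{k+1} (inv s) = inv (π z_k s) = inv t`; `k` odd:
`π z_{k+1} t = inv (π z_k (inv t)) = s`. So `π z_{k+1} ≠ 1`, and if it is a transposition it is
`ρ_{k+1}`. Hence `E_k \ E_{k+1} ⊆ {z | Br (π z_{k+1})}` up to a null set, which has measure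
`μ{Br (π z)}` by invariance, and `μ(E_k) ≥ μ{π z = swap s t} - k μ{Br (π z)}`. On `E_k`, by
induction, `J z_{i+1} = sh (dir (π z_i u_i)) (J z_i)` where `π z_i u_i = t` for `i` even, `inv s` for
`i` odd, so `J z_i = sh (gw T t s i) (J z)` for all `i ≤ k` (even `i ≤ k + 1`). -/
def GoalR1 : Prop :=
  GoalMA1 →
  ∀ (A E : Type) [Group A] [Countable A] [MeasurableSpace E] (S : Set A) (D : Type)
    [Fintype D] [DecidableEq D] (T : TreeData A S D) (ν : Measure E) [IsProbabilityMeasure ν]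
    (π : (A → E) → Equiv.Perm D) (J : (A → E) → (A → E)), (∀ σ, MeasurableSet {z | π z = σ}) →
    (∀ᵐ z ∂(pm A ν), ∀ s, π (sh (T.dir s) z) (T.inv s) = T.inv (π z s)) →
    (∀ᵐ z ∂(pm A ν), ∀ s, J (sh (T.dir s) z) = sh (T.dir (π z s)) (J z)) →
    ∀ (s t : D), s ≠ t → ∀ k : ℕ,
      (pm A ν).real {z | π z = Equiv.swap s t} - k * (pm A ν).real {z | Br (π z)} ≤
        (pm A ν).real {z | ∀ i ≤ k, π (sh (gw T s t i) z) ≠ 1 ∧
          J (sh (gw T s t i) z) = sh (gw T t s i) (J z)}

open Classical in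
/-- **L2** (large deviations for local events along a word). Proof: the event
`{z | sh g_a z ∈ Gh}`, `g_a = gw T s t (a (2R+1))`, depends on the coordinates in
`g_a⁻¹ (bl T R)`; these sets are disjoint for different `a < b`: `g_a⁻¹ h = g_b⁻¹ h'` gives
`g_b g_a⁻¹ = h' h⁻¹`, whose length is `(b - a)(2R+1) > 2R` on the left and `≤ 2R` on the right (R0).
By MA3 and invariance (MA1) the probability of `⋂_{a ∈ V}` is `q^{|V|}`, `q = μ(Gh) ≤ 1/256`. If
`4 |V| ≥ K` then `q^{|V|} ≤ (1/4)^{4 |V|} ≤ (1/4)^K`. Union over the at most `2^K` subsets `V` of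
`range K` with `4 |V| ≥ K`. -/
def GoalL2 : Prop :=
  GoalMA1 → GoalMA2 → GoalMA3 → GoalR0 →
  ∀ (A E : Type) [Group A] [MeasurableSpace E] (S : Set A) (D : Type)
    (T : TreeData A S D) (ν : Measure E) [IsProbabilityMeasure ν] (s t : D) (R K : ℕ)
    (Gh : Set (A → E)), s ≠ t → MeasurableSet Gh → DependsOn (fun z => z ∈ Gh) (bl T R) →
    (pm A ν).real Gh ≤ 1 / 256 →
      (pm A ν).real {z | K ≤ 4 * ((Finset.range K).filter
        (fun a => sh (gw T s t (a * (2 * R + 1))) z ∈ Gh)).card} ≤ (1 / 2 : ℝ) ^ K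

open Classical in
/-- **L3.** Proof: if at least `K/2` of the `z_a = sh (gw T s t (a (2R+1))) z`, `a < K`, are in `G`,
then at least `K/4` of them are in `Gh`, or at least `K/4` of them are in `G ∆ Gh`. The first has
probability at most `(1/2)^K` (the conclusion of L2 is a hypothesis here), the second at most `4 η`
by Markov's inequality, since the expected number is `K μ(G ∆ Gh) ≤ K η` (invariance, MA1). -/
def GoalL3 : Prop :=
  GoalMA1 →
  ∀ (A E : Type) [Group A] [MeasurableSpace E] (S : Set A) (D : Type)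
    (T : TreeData A S D) (ν : Measure E) [IsProbabilityMeasure ν] (s t : D) (R K : ℕ)
    (G Gh : Set (A → E)) (η : ℝ), 1 ≤ K → MeasurableSet G → MeasurableSet Gh →
    (pm A ν).real (symmDiff G Gh) ≤ η →
    ((pm A ν).real {z | K ≤ 4 * ((Finset.range K).filter
        (fun a => sh (gw T s t (a * (2 * R + 1))) z ∈ Gh)).card} ≤ (1 / 2 : ℝ) ^ K) →
      (pm A ν).real {z | K ≤ 2 * ((Finset.range K).filter
        (fun a => sh (gw T s t (a * (2 * R + 1))) z ∈ G)).card} ≤ (1 / 2 : ℝ) ^ K + 4 * η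

/-- The bound on branching permutations (conclusion of E11). -/
def BrBound : Prop :=
  ∀ (A E : Type) [Group A] [Countable A] [MeasurableSpace E] (S : Set A) (D : Type)
    [Fintype D] [DecidableEq D] (T : TreeData A S D) (ν : Measure E) [IsProbabilityMeasure ν]
    (π : (A → E) → Equiv.Perm D), (∀ σ, MeasurableSet {z | π z = σ}) →
    (∀ᵐ z ∂(pm A ν), ∀ s, π (sh (T.dir s) z) (T.inv s) = T.inv (π z s)) →
      (pm A ν).real {z | Br (π z)} ≤ Real.exp 2 * (Fintype.card D).factorial *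
        ((pm A ν).real {z | π z ≠ 1}) ^ (3 / 2 : ℝ)

/-- The conclusion of R1. -/
def RunBound : Prop :=
  ∀ (A E : Type) [Group A] [Countable A] [MeasurableSpace E] (S : Set A) (D : Type)
    [Fintype D] [DecidableEq D] (T : TreeData A S D) (ν : Measure E) [IsProbabilityMeasure ν]
    (π : (A → E) → Equiv.Perm D) (J : (A → E) → (A → E)), (∀ σ, MeasurableSet {z | π z = σ}) →
    (∀ᵐ z ∂(pm A ν), ∀ s, π (sh (T.dir s) z) (T.inv s) = T.inv (π z s)) →
    (∀ᵐ z ∂(pm A ν), ∀ s, J (sh (T.dir s) z) = sh (T.dir (π z s)) (J z)) →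
    ∀ (s t : D), s ≠ t → ∀ k : ℕ,
      (pm A ν).real {z | π z = Equiv.swap s t} - k * (pm A ν).real {z | Br (π z)} ≤
        (pm A ν).real {z | ∀ i ≤ k, π (sh (gw T s t i) z) ≠ 1 ∧
          J (sh (gw T s t i) z) = sh (gw T t s i) (J z)}

open Classical in
/-- The conclusion of L2 and L3 together. -/
def DevBound : Prop :=
  ∀ (A E : Type) [Group A] [MeasurableSpace E] (S : Set A) (D : Type)
    (T : TreeData A S D) (ν : Measure E) [IsProbabilityMeasure ν] (s t : D) (R K : ℕ)
    (G Gh : Set (A → E)) (η : ℝ), s ≠ t → 1 ≤ K → MeasurableSet G → MeasurableSet Gh →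
    DependsOn (fun z => z ∈ Gh) (bl T R) → (pm A ν).real Gh ≤ 1 / 256 →
    (pm A ν).real (symmDiff G Gh) ≤ η →
      (pm A ν).real {z | K ≤ 2 * ((Finset.range K).filter
        (fun a => sh (gw T s t (a * (2 * R + 1))) z ∈ G)).card} ≤ (1 / 2 : ℝ) ^ K + 4 * η

/-- **P0** (existence of long runs). Let `δ = μ{π z ≠ 1}`, `n = card D`, `C = e² n!`. By `BrBound`
`ρ = μ{Br (π z)} ≤ C δ^{3/2} = (C √δ) δ ≤ δ/2`, and `{π z ≠ 1}` is the union of `{Br (π z)}` and of
the sets `{π z = swap s t}`, `s ≠ t`, so some pair `s ≠ t` (at most `n²` pairs) has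
`μ{π z = swap s t} ≥ (δ/2)/n²`. By `RunBound` the set in the claim has measure
`≥ δ/(2 n²) - k ρ ≥ δ/(2 n²) - k C √δ δ ≥ δ/(4 n²)`. -/
def GoalP0 : Prop :=
  BrBound → RunBound →
  ∀ (A E : Type) [Group A] [Countable A] [MeasurableSpace E] (S : Set A) (D : Type)
    [Fintype D] [DecidableEq D] (T : TreeData A S D) (ν : Measure E) [IsProbabilityMeasure ν]
    (π : (A → E) → Equiv.Perm D) (J : (A → E) → (A → E)) (k : ℕ), 2 ≤ Fintype.card D →
    (∀ σ, MeasurableSet {z | π z = σ}) →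
    (∀ᵐ z ∂(pm A ν), ∀ s, π (sh (T.dir s) z) (T.inv s) = T.inv (π z s)) →
    (∀ᵐ z ∂(pm A ν), ∀ s, J (sh (T.dir s) z) = sh (T.dir (π z s)) (J z)) →
    0 < (pm A ν).real {z | π z ≠ 1} →
    Real.exp 2 * (Fintype.card D).factorial * Real.sqrt ((pm A ν).real {z | π z ≠ 1}) ≤ 1 / 2 →
    k * (Real.exp 2 * (Fintype.card D).factorial) *
      Real.sqrt ((pm A ν).real {z | π z ≠ 1}) ≤ 1 / (4 * (Fintype.card D : ℝ) ^ 2) →
    ∃ s t : D, s ≠ t ∧ (pm A ν).real {z | π z ≠ 1} / (4 * (Fintype.card D : ℝ) ^ 2) ≤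
        (pm A ν).real {z | ∀ i ≤ k, π (sh (gw T s t i) z) ≠ 1 ∧
          J (sh (gw T s t i) z) = sh (gw T t s i) (J z)}

/-- **P1** (one noise level). Let `μ = pm A (Y.ν j)`, `n = card D`. By P0 with `k = K (2r+1)` there
are `s ≠ t` such that `Run = {z | ∀ i ≤ k, π (sh (gw s t i) z) ≠ 1 ∧ J (sh (gw s t i) z) =
sh (gw t s i) (J z)}` has measure `≥ δ/(4 n²)`. For almost every `z ∈ Run` and all `a < K`, with
`i = a (2r+1) ≤ k`, the covering property at `sh (gw s t i) z` (valid at all translates of almost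
every `z`, MA1) gives `sh (gw s t i) z ∈ G` or `sh (gw t s i) (J z) ∈ G`. So at least `K/2` of the
`a < K` are of the first kind or at least `K/2` are of the second kind. The first has probability
`≤ (1/2)^K + 4 η` by `DevBound` (`μ(Gh) ≤ μ(G) + η ≤ 1/256`), the second too, as `J` is
measure-preserving (the set `{z' | K ≤ 2 #{a : sh (gw t s i) z' ∈ G}}` is measurable). So
`δ/(4 n²) ≤ 2 (1/2)^K + 8 η`. -/
def GoalP1 : Prop :=
  GoalMA1 → BrBound → RunBound → GoalP0 → DevBound →
  ∀ (A E : Type) [Group A] [Countable A] [MeasurableSpace E] (S : Set A) (D : Type)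
    [Fintype D] [DecidableEq D] (T : TreeData A S D) (Y : Sys T E) (j r K : ℕ) (η : ℝ)
    (Gh : Set (A → E)), 2 ≤ Fintype.card D → 1 ≤ K → η ≤ 1 / 512 → MeasurableSet Gh →
    DependsOn (fun z => z ∈ Gh) (bl T r) → (pm A (Y.ν j)).real (symmDiff Y.G Gh) ≤ η →
    (pm A (Y.ν j)).real Y.G ≤ 1 / 512 →
    Real.exp 2 * (Fintype.card D).factorial *
      Real.sqrt ((pm A (Y.ν j)).real {z | Y.π z ≠ 1}) ≤ 1 / 2 →
    (K * (2 * r + 1) : ℝ) * (Real.exp 2 * (Fintype.card D).factorial) *
      Real.sqrt ((pm A (Y.ν j)).real {z | Y.π z ≠ 1}) ≤ 1 / (4 * (Fintype.card D : ℝ) ^ 2) →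
      (pm A (Y.ν j)).real {z | Y.π z ≠ 1} / (4 * (Fintype.card D : ℝ) ^ 2) ≤
        2 * (1 / 2 : ℝ) ^ K + 8 * η

/-- **P2** (optimisation; pure analysis of the sequence `δ_j`). Let `C ≥ 1`, `N ≥ 1` be constants
and `δ_j > 0` a sequence with `δ_j → 0`, `δ_j ≤ 2 δ_{j+1}`, and suppose that for all `j ≥ j0`, all
`r ≥ 2`, `K ≥ 1` and all `η ≤ 1/512` in a set `Adm r` (the admissible errors at radius `r`),
`C √δ_j ≤ 1/2` and `K (2r+1) C √δ_j ≤ 1/N` imply `δ_j / N ≤ 2 (1/2)^K + 8 η`. Then there is `c > 0`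
with `c / (r log r)² ≤ η` for all `r ≥ 2` and `η ∈ Adm r`.
Proof. Choose `c₁ > 0` small, and `δ_* = c₁ / (r log r)²`; let `j` be the least index with
`δ_j ≤ δ_*`. If `c₁ / (2 log 2)² < δ_i` for all `i ≤ j0` then `j > j0` and
`δ_*/2 < δ_{j-1}/2 ≤ δ_j ≤ δ_*`. Take `K = ⌈log(16 N/δ_j)/log 2⌉`, so `2 (1/2)^K ≤ δ_j/(8N)` and
`K ≤ 1 + log(32 N (r log r)²/c₁)/log 2`. As `r ≥ 2` and `r log r ≤ r²`, `K ≤ C₂ log r` with
`C₂ = C₂(c₁) = O(1 + log(1/c₁))`. Then `K (2r+1) C √δ_j ≤ C₂ log r (2r+1) C √c₁/(r log r)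
≤ 3 C C₂(c₁) √c₁ ≤ 1/N` and `C √δ_j ≤ 1/2` for `c₁` small. Hence `8 η ≥ δ_j/N - δ_j/(8N)
≥ δ_j/(2N)`, so `η ≥ δ_j/(16 N) ≥ c₁/(32 N (r log r)²)`. If `η > 1/512` the claim is clear, as
`(r log r)² ≥ (2 log 2)² > 1`. -/
def GoalP2 : Prop :=
  ∀ (C N : ℝ) (δ : ℕ → ℝ) (j0 : ℕ) (Adm : ℕ → Set ℝ), 1 ≤ C → 1 ≤ N →
    (∀ j, 0 < δ j) → Filter.Tendsto δ Filter.atTop (nhds 0) → (∀ j, δ j ≤ 2 * δ (j + 1)) →
    (∀ j ≥ j0, ∀ r : ℕ, 2 ≤ r → ∀ K : ℕ, 1 ≤ K → ∀ η ∈ Adm r, η ≤ 1 / 512 →
      C * Real.sqrt (δ j) ≤ 1 / 2 → (K * (2 * r + 1) : ℝ) * C * Real.sqrt (δ j) ≤ 1 / N →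
        δ j / N ≤ 2 * (1 / 2 : ℝ) ^ K + 8 * η) →
    ∃ c : ℝ, 0 < c ∧ ∀ r : ℕ, 2 ≤ r → ∀ η ∈ Adm r, c / (r * Real.log r) ^ 2 ≤ η

/-! ### The noise -/

/-- **S0.** Proof: `nu q` is a probability measure for `0 ≤ q ≤ 1`; `jn` is an involution; it
preserves `nu q`: on `{b = false}` it is the identity, on `{b = true}` it exchanges the first and the
last coordinate, which are independent and uniform (check on boxes, or write `nu q` as a
combination of two measures, `q • (vol × δ_false × vol) + (1-q) • (vol × δ_true × vol)`). `Jb` is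
`jn` coordinatewise: MA1; it commutes with the shifts. -/
def GoalS0 : Prop :=
  GoalMA1 →
  (∀ q : ℝ, 0 ≤ q → q ≤ 1 → IsProbabilityMeasure (nu q) ∧ IsProbabilityMeasure (nz q) ∧
    MeasurePreserving jn (nu q) (nu q) ∧
    ∀ C : Type, MeasurePreserving (Jb : (C → E0) → (C → E0)) (pm C (nu q)) (pm C (nu q))) ∧
  (∀ e, jn (jn e) = e) ∧
  (∀ (C : Type) [Group C] (g : C) (z : C → E0), Jb (sh g z) = sh g (Jb z))

/-- **S1.** Proof: let `ε > 0` and choose (MA4) a finite set `F` and `α` depending on `F` with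
`bern C {κ ≠ α} ≤ ε`. Both `fs z` and `fs (Jb z)` have law `bern C` under `pm C (nu q)` (MA1 for the
coordinatewise projection, S0). If `κ (fs z) ≠ κ (fs (Jb z))` then `κ ≠ α` at one of the two points,
or some coordinate in `F` is resampled (otherwise they agree on `F`). So
`dl κ q ≤ 2 ε + |F| (1 - q)`, and `qj j → 1`. -/
def GoalS1 : Prop :=
  GoalMA1 → GoalMA4 → GoalS0 →
  ∀ (C K : Type) [Fintype K] (κ : Bern C → K), (∀ k, MeasurableSet {x | κ x = k}) →
    Filter.Tendsto (fun j => dl κ (qj j)) Filter.atTop (nhds 0)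

/-- **S2.** Proof: let `(y, ω₁, ω₂)` be independent with laws `bern C`, `pm C (nz q)`,
`pm C (nz q)`; `y' = y` resampled with `ω₁`, `y'' = y'` resampled with `ω₂`
(`y'' c = if (ω₂ c).1 then (ω₂ c).2 else y' c`). Then `(y', ω₂)` has law `bern C × pm C (nz q)`, so
`P(κ y' ≠ κ y'') = dl κ q = P(κ y ≠ κ y')`, and `y''` is `y` resampled with `ω c = (b₁ ∨ b₂,
if b₂ then u₂ else u₁)`, which has law `pm C (nz (q²))` and is independent of `y`; so
`dl κ (q²) = P(κ y ≠ κ y'') ≤ 2 dl κ q`. (Use MA1, MA2 to pass between pairs of labellings and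
labellings by pairs; coordinatewise everything is a statement on
`vol × nz q × nz q`.) The last claim: `(qj (j+1))² = qj j` and `0 < qj j < 1`. -/
def GoalS2 : Prop :=
  GoalMA1 → GoalMA2 → GoalS0 →
  (∀ (C K : Type) [Fintype K] (κ : Bern C → K), (∀ k, MeasurableSet {x | κ x = k}) →
    ∀ q : ℝ, 0 ≤ q → q ≤ 1 → dl κ (q ^ 2) ≤ 2 * dl κ q) ∧
  (∀ j, qj (j + 1) ^ 2 = qj j) ∧ (∀ j, 0 < qj j ∧ qj j < 1)

/-- **S3.** Proof: let `dl κ q = 0`, `q < 1`, and let `g` be a coordinate. With `y`, `ω` as in S2 and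
an independent uniform `u`, let `y₁ = y` with coordinate `g` replaced by `u`. On the event
`(ω g).1 = true`, which has probability `1 - q > 0` and is independent of `(y, u)`, resampling `y`
and `y₁` with `ω` gives the same point `y'`, and almost surely `κ y = κ y'`, `κ y₁ = κ y'` (`y₁`
has law `bern C` and is independent of `ω`). So `κ y = κ y₁` almost surely (the event
`{κ y ≠ κ y₁}` is independent of `ω`). Hence `influence {κ = k} g = 0` for all `g`, `k`, and
`Helper58.Orb.zero_one` shows that each `{κ = k}` has measure `0` or `1`. -/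
def GoalS3 : Prop :=
  GoalMA1 → GoalMA2 → GoalS0 →
  ∀ (C K : Type) [Fintype K] (κ : Bern C → K), (∀ k, MeasurableSet {x | κ x = k}) →
    ∀ q : ℝ, 0 ≤ q → q < 1 → dl κ q = 0 → ∃ k, ∀ᵐ x ∂(bern C), κ x = k

/-! ### The structure maps -/

/-- **O1.** Proof: existence and uniqueness of the bijection from `Helper58.Orb.unique_dir`
(for a.e. `x`, for all `l` there is a unique `s` with `Φ (dir s · x) = dir l · Φ x`) together with the
proof there (for each `s` there is `l`; `l` is unique by freeness of the target action at `Φ x` and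
injectivity of `dir`). Measurability: for each `f₀` the set
`P(f₀) = {x | ∀ s, Φ (shift (dir s) x) = shift (dir (f₀ s)) (Φ x)}` is measurable
(`measurableSet_agree`), and `{lab = f₀}` is a Boolean combination of these finitely many sets. -/
def GoalO1 : Prop :=
  ∀ (A B : Type) [Group A] [Group B] [Countable A] [Countable B] (S : Set A) (S' : Set B)
    (D L : Type) [Fintype D] [Fintype L] (T : TreeData A S D) (T' : TreeData B S' L)
    (e₀ : D ≃ L) (Φ : Bern A → Bern B), OrbitIsometry S S' Φ →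
    (∀ᵐ x ∂(bern A), ∃! f : D ≃ L, ∀ s,
      Φ (shift (T.dir s) x) = shift (T'.dir (f s)) (Φ x)) ∧
    (∀ᵐ x ∂(bern A), ∀ s, Φ (shift (T.dir s) x) = shift (T'.dir (lab T T' e₀ Φ x s)) (Φ x)) ∧
    (∀ f₀, MeasurableSet {x | lab T T' e₀ Φ x = f₀})

/-- **O2.** Proof. Let `x` be such that everything below holds at all points of its orbit
(`ae_forall_shift`). Uniqueness of `g`: if `Φ (g x) = Φ (g' x)` then the orbit distance of `g x` and
`g' x` is `0`, so `g = g'`. Existence: by induction along a word for `b`, using O1 at the orbit points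
(`Φ (g x) = b Φ x`, then `dir l b Φ x = dir l Φ (g x) = Φ (dir s g x)` with `s = λ_{g x}⁻¹ l`).
Length: `len b = d(Φ x, b Φ x) = d(Φ x, Φ (g x)) = d(x, g x) = len g` (`orbDist_shift`, freeness).
`rd` is injective: equal values give `b⁻¹ Φ x = b'⁻¹ Φ x`, so `b = b'` by freeness; surjective: for
`a : A` the orbit distance of `Φ x` and `Φ (a⁻¹ x)` is finite, so `Φ (a⁻¹ x) = b' Φ x` for some
`b'`, and `rd b'⁻¹ = a`. Measurability as in O1 (countable Boolean combinations of the sets
`agree Φ g b`). `len a⁻¹ = len a` (see R0). -/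
def GoalO2 : Prop :=
  GoalR0 → GoalO1 →
  ∀ (A B : Type) [Group A] [Group B] [Countable A] [Countable B] (S : Set A) (S' : Set B)
    (D L : Type) [Fintype D] [Fintype L] (T : TreeData A S D) (T' : TreeData B S' L)
    (_ : D ≃ L) (Φ : Bern A → Bern B), OrbitIsometry S S' Φ →
    (∀ᵐ x ∂(bern A), ∀ b : B, (∃! g : A, Φ (shift g x) = shift b (Φ x)) ∧
      Φ (shift (psn Φ x b) x) = shift b (Φ x) ∧ T.len (psn Φ x b) = T'.len b) ∧
    (∀ᵐ x ∂(bern A), Function.Bijective (rd Φ x) ∧ ∀ b, T.len (rd Φ x b) = T'.len b) ∧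
    (∀ b g, MeasurableSet {x | rd Φ x b = g})

/-- **O3.** Proof: for almost every `x`, `Ψ (Φ (g x)) = g x` for all `g` and `Φ (Ψ (b y)) = b y` for
`y = Φ x` and all `b`. With `l = λ_x s`: `Φ (dir s x) = dir l Φ x`, so `Ψ (dir l Φ x) = dir s x =
dir s Ψ (Φ x)`; so `λ_x⁻¹` has the property defining the structure map of `Ψ` at `Φ x`, and it is
unique (O1 for `Ψ` at `Φ x`, a.e. as `Φ` is measure-preserving). Second claim: let
`b = psn Ψ (Φ x) a⁻¹`, i.e. `Ψ (b Φ x) = a⁻¹ Ψ (Φ x) = a⁻¹ x`; then `b Φ x = Φ (a⁻¹ x)`, so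
`psn Φ x b = a⁻¹`, and `rd Ψ (Φ x) a = b⁻¹`, `rd Φ x b⁻¹ = (psn Φ x b)⁻¹ = a`. -/
def GoalO3 : Prop :=
  GoalR0 → GoalO1 → GoalO2 →
  ∀ (A B : Type) [Group A] [Group B] [Countable A] [Countable B] (S : Set A) (S' : Set B)
    (D L : Type) [Fintype D] [Fintype L] (T : TreeData A S D) (T' : TreeData B S' L)
    (e₀ : D ≃ L) (Φ : Bern A → Bern B) (Ψ : Bern B → Bern A), IsoPair S S' Φ Ψ →
    (∀ᵐ x ∂(bern A), lab T' T e₀.symm Ψ (Φ x) = (lab T T' e₀ Φ x).symm) ∧
    (∀ᵐ x ∂(bern A), ∀ a : A, rd Φ x (rd Ψ (Φ x) a) = a)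

/-- **O4.** Proof: identify `A → unitInterval × N` with pairs `(x, ω)` (MA2, first two claims). For
almost every `x` the map `ω ↦ ω ∘ rd Φ x` preserves the product measures (MA1, second claim, as
`rd Φ x` is bijective), `Φ` is measure-preserving, and `(x, ω) ↦ ω ∘ rd Φ x` is measurable (each
coordinate `b` is `ω (rd Φ x b)`, and `x ↦ rd Φ x b` has countably many measurable level sets): use
`MeasurePreserving.skew_product`. -/
def GoalO4 : Prop :=
  GoalMA1 → GoalMA2 →
  ∀ (A B N : Type) [Group A] [Group B] [Countable A] [Countable B] [MeasurableSpace N]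
    (ν : Measure N) [IsProbabilityMeasure ν] (Φ : Bern A → Bern B),
    MeasurePreserving Φ (bern A) (bern B) → (∀ᵐ x ∂(bern A), Function.Bijective (rd Φ x)) →
    (∀ b g, MeasurableSet {x | rd Φ x b = g}) →
      MeasurePreserving (Th Φ : (A → unitInterval × N) → (B → unitInterval × N))
        (pm A ((volume : Measure unitInterval).prod ν))
        (pm B ((volume : Measure unitInterval).prod ν))

/-- **O5.** Proof: almost everything follows from properties of `x = fs z`, whose law is `bern A`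
(MA1). First claim: `fs (Th Φ z) = Φ x`, `Ψ (Φ x) = x`, and the second component at `a` is
`(z (rd Φ x (rd Ψ (Φ x) a))).2 = (z a).2` (O3). Second claim, with `l = λ_x s`: the first components
agree because `fs (sh g z) = shift g (fs z)` and `Φ (dir s x) = dir l Φ x`. The second component at
`b` on the left is `(z ((dir s)⁻¹ * rd Φ (dir s x) b)).2`, on the right
`(z (rd Φ x ((dir l)⁻¹ * b))).2`. And `psn Φ x (b⁻¹ * dir l) = psn Φ (dir s x) b⁻¹ * dir s`, because
`Φ (g' dir s x) = b⁻¹ Φ (dir s x) = b⁻¹ dir l Φ x` for `g' = psn Φ (dir s x) b⁻¹` (uniqueness in O2);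
take inverses. -/
def GoalO5 : Prop :=
  GoalR0 → GoalO1 → GoalO2 → GoalO3 → GoalMA1 →
  ∀ (A B N : Type) [Group A] [Group B] [Countable A] [Countable B] [MeasurableSpace N]
    (ν : Measure N) [IsProbabilityMeasure ν] (S : Set A) (S' : Set B)
    (D L : Type) [Fintype D] [Fintype L] (T : TreeData A S D) (T' : TreeData B S' L)
    (e₀ : D ≃ L) (Φ : Bern A → Bern B) (Ψ : Bern B → Bern A), IsoPair S S' Φ Ψ →
    (∀ᵐ z ∂(pm A ((volume : Measure unitInterval).prod ν)), Th Ψ (Th Φ z) = z) ∧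
    (∀ᵐ z ∂(pm A ((volume : Measure unitInterval).prod ν)), ∀ s,
      Th Φ (sh (T.dir s) z) = sh (T'.dir (lab T T' e₀ Φ (fs z) s)) (Th Φ z))

/-- **O6a** (the permutations of the concrete system; measures). Let `w = Jb (Th Φ z)`, `x = fs z`,
`x' = fs w`, `κ = lab T' T e₀.symm Ψ`; so `PiA z s = κ x' (lab Φ x s)` and `JA z = Th Ψ w`.
First claim: O4 for `Φ` and for `Ψ` (its hypotheses come from O2 for `Φ` and `Ψ`) and S0.
(Measurability) `lab` has measurable level sets (O1) and `z ↦ x`, `z ↦ x'` are measurable; there are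
finitely many pairs of values. (Probability) `PiA z ≠ 1` iff `κ x' ≠ (lab Φ x).symm = κ (Φ x)` for
almost every `z` (O3) and `Φ x = fs (Th Φ z)`; the law of `Th Φ z` is `pm B (nu q)` (O4): so the
probability is `dl κ q` (the set in the definition of `dl` is measurable). -/
def GoalO6a : Prop :=
  GoalR0 → GoalO1 → GoalO2 → GoalO3 → GoalO4 → GoalMA1 → GoalMA2 → GoalS0 →
  ∀ (A B : Type) [Group A] [Group B] [Countable A] [Countable B] (S : Set A) (S' : Set B)
    (D L : Type) [Fintype D] [DecidableEq D] [Fintype L] (T : TreeData A S D)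
    (T' : TreeData B S' L) (e₀ : D ≃ L) (Φ : Bern A → Bern B) (Ψ : Bern B → Bern A),
    IsoPair S S' Φ Ψ → ∀ q : ℝ, 0 ≤ q → q ≤ 1 →
    MeasurePreserving (JA Φ Ψ) (pm A (nu q)) (pm A (nu q)) ∧
    (∀ σ, MeasurableSet {z | PiA T T' e₀ Φ Ψ z = σ}) ∧
    (pm A (nu q)).real {z | PiA T T' e₀ Φ Ψ z ≠ 1} = dl (lab T' T e₀.symm Ψ) q

/-- **O6b** (the permutations of the concrete system; the relations along the edges). Notation of
O6a, and `λ = lab T T' e₀ Φ x`. (J) `Th Φ (sh (dir s) z) = sh (dir l) (Th Φ z)`, `l = λ s` (O5), `Jb`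
commutes with `sh` (S0), and `Th Ψ (sh (dir l) w) = sh (dir (κ x' l)) (Th Ψ w)` by O5 for `Ψ` (almost
every `w`; the law of `w` is `pm B (nu q)` by O4, S0). (Edge) `fs (sh (dir s) z) = dir s x`, and
`lab Φ (dir s x) (inv s) = inv l`: the value `l₁` satisfies (O1 at `dir s x`)
`dir l₁ Φ (dir s x) = Φ (dir (inv s) dir s x) = Φ x = dir (inv l) Φ (dir s x)`, use freeness at
`Φ (dir s x)` and injectivity of `dir`. In the same way `κ (dir l x') (inv l) = inv (κ x' l)`, and
`fs (Jb (Th Φ (sh (dir s) z))) = dir l x'`. -/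
def GoalO6b : Prop :=
  GoalR0 → GoalO1 → GoalO2 → GoalO3 → GoalO4 → GoalO5 → GoalMA1 → GoalMA2 → GoalS0 →
  ∀ (A B : Type) [Group A] [Group B] [Countable A] [Countable B] (S : Set A) (S' : Set B)
    (D L : Type) [Fintype D] [DecidableEq D] [Fintype L] (T : TreeData A S D)
    (T' : TreeData B S' L) (e₀ : D ≃ L) (Φ : Bern A → Bern B) (Ψ : Bern B → Bern A),
    IsoPair S S' Φ Ψ → ∀ q : ℝ, 0 ≤ q → q ≤ 1 →
    (∀ᵐ z ∂(pm A (nu q)), ∀ s,
      JA Φ Ψ (sh (T.dir s) z) = sh (T.dir (PiA T T' e₀ Φ Ψ z s)) (JA Φ Ψ z)) ∧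
    (∀ᵐ z ∂(pm A (nu q)), ∀ s,
      PiA T T' e₀ Φ Ψ (sh (T.dir s) z) (T.inv s) = T.inv (PiA T T' e₀ Φ Ψ z s))

/-- **O7** (covering and smallness of `GA`). Notation of O6, and `y = Φ x`, `y' = fs w`. (Cover) Let
`z ∉ GA` and `JA z ∉ GA`. Then `κ y = α y`; and `Φ (fs (JA z)) = Φ (Ψ y') = y'` almost surely (the
law of `y'` is `bern B`), so `κ y' = α y'`. For `b ∈ bl T' m` we have `rd Φ x b ∈ bl T m` (O2), so the
noise bit of `Th Φ z` at `b` is `false`, and `y' b = y b`. So `α y' = α y`, hence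
`κ y' = κ y = λ.symm` (O3), i.e. `PiA z = 1`. (Small) `{κ (Φ x) ≠ α (Φ x)}` has probability
`bern B {κ ≠ α}`, and each noise bit is `true` with probability `1 - q`; the ball is finite. -/
def GoalO7 : Prop :=
  GoalR0 → GoalO1 → GoalO2 → GoalO3 → GoalO4 → GoalMA1 → GoalMA2 → GoalS0 →
  ∀ (A B : Type) [Group A] [Group B] [Countable A] [Countable B] (S : Set A) (S' : Set B)
    (D L : Type) [Fintype D] [DecidableEq D] [Fintype L] (T : TreeData A S D)
    (T' : TreeData B S' L) (e₀ : D ≃ L) (Φ : Bern A → Bern B) (Ψ : Bern B → Bern A)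
    (α : Bern B → (L ≃ D)) (m : ℕ), IsoPair S S' Φ Ψ →
    (∀ f, MeasurableSet {y | α y = f}) → DependsOn α (bl T' m) →
    MeasurableSet (GA T T' e₀ Φ Ψ α m) ∧ (bl T m).Finite ∧ ∀ q : ℝ, 0 ≤ q → q ≤ 1 →
    (∀ᵐ z ∂(pm A (nu q)), PiA T T' e₀ Φ Ψ z ≠ 1 →
      z ∈ GA T T' e₀ Φ Ψ α m ∨ JA Φ Ψ z ∈ GA T T' e₀ Φ Ψ α m) ∧
    (pm A (nu q)).real (GA T T' e₀ Φ Ψ α m) ≤
      (bern B).real {y | lab T' T e₀.symm Ψ y ≠ α y} + (bl T m).ncard * (1 - q)

/-- **O8a** (`GhA` is measurable and local). Proof. `tg` takes finitely many values, and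
`{x | tg x = f₀}` is a Boolean combination of the sets `{x | t (dir s) x = dir (f s)}` (note that `f`
in the definition of `tg` is unique if it exists, as `dir` is injective), so it is measurable; `tg`
depends only on the coordinates of `x` in the ball of radius `k`, as `t (dir s)` does. Let
`d = dg T T' e₀ f t x`, `x = fs z`. By induction on the list `ls`: `ppos T d ls` has length at most
`ls.length`, takes finitely (countably) many values as `z` varies, each on a measurable set, and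
depends only on the coordinates of `z` in the ball of radius `k + ls.length` (for `ls = l :: ls'` the
new value depends on `p = ppos ls'` and on `tg (shift p x)`, i.e. on the coordinates
`x (p⁻¹ u)`, `len u ≤ k`; `len p⁻¹ = len p`, R0). For `T'.len b ≤ m` the list `lsOf T' b` has length
`≤ m` (in both cases of the definition), and `Yd b = f (shift (ppos T d (lsOf T' b)) x)`. Here one
uses it for lists of length at most `m`, but `tg` is only evaluated at positions reached by proper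
sublists and `f` at the last position, of length `≤ m`: everything depends on the coordinates in
`bl T (k + m)`. As `α` has measurable level sets and `z ↦ Yd …` is measurable,
`{z | α (Yd …) = f₁}` is measurable. Finally `bl T m` is finite and contained in `bl T (k + m)`. -/
def GoalO8a : Prop :=
  GoalR0 →
  ∀ (A B : Type) [Group A] [Group B] [Countable A] [Countable B] (S : Set A) (S' : Set B)
    (D L : Type) [Fintype D] [Fintype L] (T : TreeData A S D)
    (T' : TreeData B S' L) (e₀ : D ≃ L) (α : Bern B → (L ≃ D)) (m : ℕ),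
    (∀ f, MeasurableSet {y | α y = f}) →
    ∀ (k : ℕ) (f : Bern A → unitInterval) (t : A → Bern A → B), Measurable f →
    (∀ s ∈ S, ∀ h : B, MeasurableSet {x | t s x = h}) →
    BallMap S k f → (∀ s ∈ S, BallMap S k (t s)) →
    MeasurableSet (GhA T T' e₀ α m f t) ∧
      DependsOn (fun z => z ∈ GhA T T' e₀ α m f t) (bl T (k + m))

/-- **O8b** (`GhA` approximates `GA`). Let `x = fs z`, `y = Φ x`, and for `g ∈ A` let
`d(g) = (Φ (g x) 1, lab Φ (g x))`. Claim (*): for almost every `x`, if `g x ∉ wrong S Φ f t` for all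
`g ∈ bl T m`, then `z ∈ GA ↔ z ∈ GhA`. Proof: for `g ∈ bl T m`, `dg T T' e₀ f t x g = d(g)`: the first
components agree as `g x ∉ wrong`, and `Φ (dir s g x) = t (dir s) (g x) · Φ (g x)` and
`= dir (lab Φ (g x) s) · Φ (g x)` (O1), so `t (dir s) (g x) = dir (lab Φ (g x) s)` by freeness at
`Φ (g x)`; hence `lab Φ (g x)` has the property defining `tg`, which is unique as `dir` is injective. By
induction on `ls` with `ls.length ≤ m`: `p = ppos T (dg …) ls` has length `≤ ls.length` and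
`Φ (p · x) = (ls.map T'.dir).prod · Φ x` (step: `Φ (dir (λ⁻¹ l) p x) = dir l Φ (p x)` with
`λ = lab Φ (p x)`, O1). For `T'.len b ≤ m` the list `lsOf T' b` has product `b⁻¹` and length
`T'.len b ≤ m` (the list exists: `T'.exists_list b⁻¹`, `exists_dir`, `len b⁻¹ = len b` by R0), so
`Yd b = Φ (p x) 1 = (shift b⁻¹ y) 1 = y b`. As `α` depends on `bl T' m`, `α (Yd …) = α y`, and
`(tg x).symm = (lab Φ x).symm = κ y` with `κ = lab T' T e₀.symm Ψ` (O3). This proves (*).
`wrong` is measurable: it is the union of `{f x ≠ Φ x 1}` and of the sets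
`{t s x = h} ∩ {Φ (s x) ≠ h Φ x}`, `s ∈ S`, `h ∈ B` (countable). The law of `fs z` is `bern A` (MA1),
invariant under `shift g`; so `μ(GA ∆ GhA) ≤ ∑_{g ∈ bl T m} bern A (wrong S Φ f t)` (the ball is
finite by O7, or by `T.sph`). -/
def GoalO8b : Prop :=
  GoalR0 → GoalO1 → GoalO2 → GoalO3 → GoalO7 → GoalMA1 → GoalMA2 → GoalS0 → GoalO4 →
  ∀ (A B : Type) [Group A] [Group B] [Countable A] [Countable B] (S : Set A) (S' : Set B)
    (D L : Type) [Fintype D] [DecidableEq D] [Fintype L] (T : TreeData A S D)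
    (T' : TreeData B S' L) (e₀ : D ≃ L) (Φ : Bern A → Bern B) (Ψ : Bern B → Bern A)
    (α : Bern B → (L ≃ D)) (m : ℕ), IsoPair S S' Φ Ψ →
    (∀ f, MeasurableSet {y | α y = f}) → DependsOn α (bl T' m) →
    ∀ (f : Bern A → unitInterval) (t : A → Bern A → B), Measurable f →
    (∀ s ∈ S, ∀ h : B, MeasurableSet {x | t s x = h}) →
      ∀ q : ℝ, 0 ≤ q → q ≤ 1 →
        (pm A (nu q)).real (symmDiff (GA T T' e₀ Φ Ψ α m) (GhA T T' e₀ α m f t)) ≤
          (bl T m).ncard * (bern A).real (wrong S Φ f t)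

/-- **O9** (the structure map is not constant). Proof: as in `Helper58.Orb.iso_spread`. Suppose
`lab T' T e₀.symm Ψ y = f` for almost every `y`. Then `Ψ (dir l · y) = dir (f l) · Ψ y` for all `l`
and almost every `y` (O1), and at `dir l · y` with `inv l`:
`Ψ y = dir (f (inv l)) dir (f l) Ψ y`, so `f (inv l) = inv (f l)` by freeness at `Ψ y`. Fix `l` and
`s = f l`. If `inv s = s` and `inv l ≠ l` then `f (inv l) = inv s = s = f l`, so `inv l = l`, a
contradiction. If `inv s ≠ s` and `inv l = l` then `s = f l = f (inv l) = inv s`, a contradiction.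
(`hmix` says that one of the two cases occurs for every pair; `D` is nonempty.) -/
def GoalO9 : Prop :=
  GoalO1 →
  ∀ (A B : Type) [Group A] [Group B] [Countable A] [Countable B] (S : Set A) (S' : Set B)
    (D L : Type) [Fintype D] [Nonempty D] [Fintype L] (T : TreeData A S D)
    (T' : TreeData B S' L) (e₀ : D ≃ L) (Ψ : Bern B → Bern A), OrbitIsometry S' S Ψ →
    (∀ (s : D) (l : L), (T.inv s = s ∧ T'.inv l ≠ l) ∨ (T.inv s ≠ s ∧ T'.inv l = l)) →
      ¬ ∃ f, ∀ᵐ y ∂(bern B), lab T' T e₀.symm Ψ y = f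

/-- **O10** (an orbit isometry which is injective on a conull set has an inverse). Proof: let `X₀` be
conull with `Φ` injective on it; shrinking it we may take `X₀` measurable. As `A`, `B` are countable,
`Bern A`, `Bern B` are standard Borel spaces, so `Φ '' X₀` is measurable
(`MeasurableSet.image_of_measurable_injOn`) and there is a measurable `Ψ : Bern B → Bern A` with
`Ψ (Φ x) = x` for `x ∈ X₀` (the inverse on `Φ '' X₀`, see `MeasurableEmbedding` for `X₀.restrict Φ`,
and a constant elsewhere). `Φ (Ψ y) = y` on `Φ '' X₀`, which is conull as `Φ` is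
measure-preserving. `Ψ` is measure-preserving: for measurable `U`,
`bern B (Ψ⁻¹ U) = bern A (Φ⁻¹ (Ψ⁻¹ U)) = bern A U`. Isometry: for almost every `x`, for all `b`
there is `g` with `Φ (g x) = b Φ x` (O2), and `Ψ (Φ (g x)) = g x`; so with `y = Φ x`,
`d(Ψ y, Ψ (b y)) = d(x, g x) = d(Φ x, Φ (g x)) = d(y, b y)`; this is the claim for almost every
`y`. -/
def GoalO10 : Prop :=
  GoalR0 → GoalO1 → GoalO2 →
  ∀ (A B : Type) [Group A] [Group B] [Countable A] [Countable B] (S : Set A) (S' : Set B)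
    (D L : Type) [Fintype D] [Fintype L] (T : TreeData A S D)
    (T' : TreeData B S' L) (_ : D ≃ L) (Φ : Bern A → Bern B), OrbitIsometry S S' Φ →
    (∃ X₀ : Set (Bern A), bern A X₀ᶜ = 0 ∧ Set.InjOn Φ X₀) → ∃ Ψ, IsoPair S S' Φ Ψ

end Pool.Agent.Helper32.OIP
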