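import Pool.Agent.Helper32.OIP.Goals

/-!
# Assembly, part 1: from the goals to the bound for an abstract system
-/

open MeasureTheory
open scoped ENNReal

namespace Pool.Agent.Helper32.OIP

open Pool.Agent.Helper58.Orb

theorem devBound (ma1 : GoalMA1) (ma2 : GoalMA2) (ma3 : GoalMA3) (r0 : GoalR0) (l2 : GoalL2)
    (l3 : GoalL3) : DevBound := by
  intro A E _ _ S D T ν _ s t R K G Gh η hst hK hG hGh hdep hsmall hη
  exact l3 ma1 A E S D T ν s t R K G Gh η hK hG hGh hη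
    (l2 ma1 ma2 ma3 r0 A E S D T ν s t R K Gh hst hGh hdep hsmall)

theorem entE8 (ma1 : GoalMA1) (ma2 : GoalMA2) (ma4 : GoalMA4) (e1 : GoalE1) (e2 : GoalE2)
    (e3 : GoalE3) (e4 : GoalE4) (e5 : GoalE5) (e6 : GoalE6) (e7 : GoalE7) (e8 : GoalE8)
    (e9 : GoalE9) (e10 : GoalE10) (e11 : GoalE11) : BrBound := by
  have h5 := e5 e4 e2 e1 ma1 ma2 e3
  have h7 := e7 e6 h5
  have h8 := e8 ma1 ma4 h7
  exact e11 ma1 e9 e10 h8

/-- The bound for an abstract system. -/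
theorem mainA (ma1 : GoalMA1) (br : BrBound) (run : RunBound) (p0 : GoalP0) (dev : DevBound)
    (p1 : GoalP1) (p2 : GoalP2) (A E : Type) [Group A] [Countable A] [MeasurableSpace E]
    (S : Set A) (D : Type) [Fintype D] [DecidableEq D] (T : TreeData A S D) (Y : Sys T E)
    (hD : 2 ≤ Fintype.card D) :
    ∃ c : ℝ, 0 < c ∧ ∀ r : ℕ, 2 ≤ r → ∀ (η : ℝ) (Gh : Set (A → E)), MeasurableSet Gh →
      DependsOn (fun z => z ∈ Gh) (bl T r) →
      (∀ j, (pm A (Y.ν j)).real (symmDiff Y.G Gh) ≤ η) → c / (r * Real.log r) ^ 2 ≤ η := by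
  obtain ⟨j0, hj0⟩ := Y.small
  set C : ℝ := Real.exp 2 * (Fintype.card D).factorial with hC
  set N : ℝ := 4 * (Fintype.card D : ℝ) ^ 2 with hN
  have hC1 : 1 ≤ C := by
    rw [hC]
    have h1 : (1 : ℝ) ≤ Real.exp 2 := by
      have := Real.add_one_le_exp (2 : ℝ)
      linarith
    have h2 : (1 : ℝ) ≤ ((Fintype.card D).factorial : ℝ) := by
      exact_mod_cast Nat.one_le_iff_ne_zero.2 (Nat.factorial_ne_zero _)
    nlinarith
  have hN1 : 1 ≤ N := by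
    rw [hN]
    have h1 : (2 : ℝ) ≤ (Fintype.card D : ℝ) := by exact_mod_cast hD
    nlinarith
  obtain ⟨c, hc, h⟩ := p2 C N (fun j => (pm A (Y.ν j)).real {z | Y.π z ≠ 1}) j0
    (fun r => {η | ∃ Gh : Set (A → E), MeasurableSet Gh ∧ DependsOn (fun z => z ∈ Gh) (bl T r) ∧
      ∀ j, (pm A (Y.ν j)).real (symmDiff Y.G Gh) ≤ η}) hC1 hN1 Y.pos Y.tend Y.doub (by
      intro j hj r hr K hK η hη hη2 h1 h2
      obtain ⟨Gh, hGh, hdep, hsd⟩ := hη
      exact p1 ma1 br run p0 dev A E S D T Y j r K η Gh hD hK hη2 hGh hdep (hsd j) (hj0 j hj)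
        h1 h2)
  refine ⟨c, hc, fun r hr η Gh hGh hdep hsd => ?_⟩
  exact h r hr η ⟨Gh, hGh, hdep, hsd⟩

end Pool.Agent.Helper32.OIP
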