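import Pool.Agent.Helper32.OIP.Asm1

/-!
# Assembly, part 2: the concrete system, and the final theorem from the goals
-/

open MeasureTheory
open scoped ENNReal

namespace Pool.Agent.Helper32.OIP

open Pool.Agent.Helper58.Orb

theorem qj_tendsto : Filter.Tendsto qj Filter.atTop (nhds 1) := by
  have h1 : Filter.Tendsto (fun j : ℕ => (1 / 2 : ℝ) ^ j) Filter.atTop (nhds 0) :=
    tendsto_pow_atTop_nhds_zero_of_lt_one (by norm_num) (by norm_num)
  have h2 : Filter.Tendsto (fun x : ℝ => (1 / 2 : ℝ) ^ x) (nhds 0) (nhds ((1 / 2 : ℝ) ^ (0 : ℝ))) :=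
    (Real.continuous_const_rpow (by norm_num : (1 / 2 : ℝ) ≠ 0)).continuousAt
  rw [Real.rpow_zero] at h2
  exact h2.comp h1

/-- The goals about the concrete system. -/
structure Conc : Prop where
  r0 : GoalR0
  ma1 : GoalMA1
  ma2 : GoalMA2
  ma4 : GoalMA4
  s0 : GoalS0
  s1 : GoalS1
  s2 : GoalS2
  s3 : GoalS3
  o1 : GoalO1
  o2 : GoalO2
  o3 : GoalO3
  o4 : GoalO4
  o5 : GoalO5
  o6a : GoalO6a
  o6b : GoalO6b
  o7 : GoalO7
  o8a : GoalO8a
  o8b : GoalO8b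
  o9 : GoalO9
  o10 : GoalO10

section

variable {A B : Type} [Group A] [Group B] [Countable A] [Countable B] {S : Set A} {S' : Set B}
  {D L : Type} [Fintype D] [DecidableEq D] [Fintype L]

theorem exists_alpha (c : Conc) (T : TreeData A S D) (T' : TreeData B S' L) (e₀ : D ≃ L)
    {Φ : Bern A → Bern B} {Ψ : Bern B → Bern A} (h : IsoPair S S' Φ Ψ) :
    ∃ (α : Bern B → (L ≃ D)) (m : ℕ), (∀ f, MeasurableSet {y | α y = f}) ∧
      DependsOn α (bl T' m) ∧ (bern B).real {y | lab T' T e₀.symm Ψ y ≠ α y} ≤ 1 / 1024 := by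
  classical
  have hm := (c.o1 B A S' S L D T' T e₀.symm Ψ h.isoR).2.2
  obtain ⟨W, X', h1, h2, h3⟩ := c.ma4 B unitInterval (L ≃ D) (volume : Measure unitInterval)
    (lab T' T e₀.symm Ψ) hm (1 / 1024) (by norm_num)
  refine ⟨X', W.sup T'.len, h1, ?_, ?_⟩
  · refine h2.mono ?_
    intro b hb
    show T'.len b ≤ _
    exact Finset.le_sup (f := T'.len) hb
  · have : {y : Bern B | lab T' T e₀.symm Ψ y ≠ X' y} = {y | X' y ≠ lab T' T e₀.symm Ψ y} := by
      ext y; exact ne_comm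
    rw [this]
    exact h3

theorem exists_sys (c : Conc) (T : TreeData A S D) (T' : TreeData B S' L) (e₀ : D ≃ L)
    [Nonempty D] {Φ : Bern A → Bern B} {Ψ : Bern B → Bern A} (h : IsoPair S S' Φ Ψ)
    (hmix : ∀ (s : D) (l : L), (T.inv s = s ∧ T'.inv l ≠ l) ∨ (T.inv s ≠ s ∧ T'.inv l = l)) :
    ∃ (α : Bern B → (L ≃ D)) (m : ℕ) (Y : Sys T E0), (∀ f, MeasurableSet {y | α y = f}) ∧
      DependsOn α (bl T' m) ∧ (∀ j, Y.ν j = nu (qj j)) ∧ Y.G = GA T T' e₀ Φ Ψ α m := by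
  classical
  obtain ⟨α, m, hα, hdep, hsmall⟩ := exists_alpha c T T' e₀ h
  have hs2 := c.s2 c.ma1 c.ma2 c.s0
  have hq0 : ∀ j, 0 ≤ qj j := fun j => (hs2.2.2 j).1.le
  have hq1 : ∀ j, qj j ≤ 1 := fun j => (hs2.2.2 j).2.le
  have hs0 := c.s0 c.ma1
  have o6a := c.o6a c.r0 c.o1 c.o2 c.o3 c.o4 c.ma1 c.ma2 c.s0 A B S S' D L T T' e₀ Φ Ψ h
  have o6b := c.o6b c.r0 c.o1 c.o2 c.o3 c.o4 c.o5 c.ma1 c.ma2 c.s0 A B S S' D L T T' e₀ Φ Ψ h
  have o7 := c.o7 c.r0 c.o1 c.o2 c.o3 c.o4 c.ma1 c.ma2 c.s0 A B S S' D L T T' e₀ Φ Ψ α m h hα hdep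
  have hκ : ∀ f, MeasurableSet {y | lab T' T e₀.symm Ψ y = f} :=
    (c.o1 B A S' S L D T' T e₀.symm Ψ h.isoR).2.2
  have hδ : ∀ j, (pm A (nu (qj j))).real {z | PiA T T' e₀ Φ Ψ z ≠ 1} =
      dl (lab T' T e₀.symm Ψ) (qj j) := fun j => (o6a (qj j) (hq0 j) (hq1 j)).2.2
  refine ⟨α, m, {
    ν := fun j => nu (qj j)
    prob := fun j => (hs0.1 (qj j) (hq0 j) (hq1 j)).1
    π := PiA T T' e₀ Φ Ψ
    J := JA Φ Ψ
    G := GA T T' e₀ Φ Ψ α m
    measπ := (o6a (qj 0) (hq0 0) (hq1 0)).2.1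
    measG := o7.1
    edge := fun j => (o6b (qj j) (hq0 j) (hq1 j)).2
    Jmp := fun j => (o6a (qj j) (hq0 j) (hq1 j)).1
    Jeq := fun j => (o6b (qj j) (hq0 j) (hq1 j)).1
    cover := fun j => (o7.2.2 (qj j) (hq0 j) (hq1 j)).1
    small := ?_
    pos := ?_
    tend := ?_
    doub := ?_ }, hα, hdep, fun _ => rfl, rfl⟩
  · have h1 : Filter.Tendsto (fun j => ((bl T m).ncard : ℝ) * (1 - qj j)) Filter.atTop (nhds 0) := by
      have : Filter.Tendsto (fun j => ((bl T m).ncard : ℝ) * (1 - qj j)) Filter.atTop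
          (nhds (((bl T m).ncard : ℝ) * (1 - 1))) :=
        (qj_tendsto.const_sub 1).const_mul _
      simpa using this
    have h2 := h1.eventually_le_const (show (0 : ℝ) < 1 / 1024 by norm_num)
    obtain ⟨j0, hj0⟩ := Filter.eventually_atTop.1 h2
    refine ⟨j0, fun j hj => ?_⟩
    have h3 := (o7.2.2 (qj j) (hq0 j) (hq1 j)).2
    have h4 := hj0 j hj
    linarith
  · intro j
    rw [hδ]
    have hnn : 0 ≤ dl (lab T' T e₀.symm Ψ) (qj j) := by
      unfold dl; exact measureReal_nonneg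
    refine lt_of_le_of_ne hnn fun h0 => ?_
    obtain ⟨k, hk⟩ := c.s3 c.ma1 c.ma2 c.s0 B (L ≃ D) _ hκ (qj j) (hq0 j) (hs2.2.2 j).2 h0.symm
    exact c.o9 c.o1 A B S S' D L T T' e₀ Ψ h.isoR hmix ⟨k, hk⟩
  · have := c.s1 c.ma1 c.ma4 c.s0 B (L ≃ D) _ hκ
    refine this.congr fun j => ?_
    rw [hδ]
  · intro j
    rw [hδ, hδ]
    have := hs2.1 B (L ≃ D) (lab T' T e₀.symm Ψ) hκ (qj (j + 1)) (hq0 _) (hq1 _)
    rwa [hs2.2.1 j] at this

/-- Elementary estimate for the change of radius. -/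
theorem radius_bound (m : ℕ) : ∃ M : ℝ, 0 < M ∧ ∀ k : ℕ, 2 ≤ k →
    ((k + m : ℕ) : ℝ) * Real.log ((k + m : ℕ) : ℝ) ≤ M * (k * Real.log k) := by
  have hl2 : 0 < Real.log 2 := Real.log_pos (by norm_num)
  have hlm : 0 ≤ Real.log (1 + m) := Real.log_nonneg (by
    have : (0 : ℝ) ≤ m := Nat.cast_nonneg m
    linarith)
  refine ⟨(1 + m) * (1 + Real.log (1 + m) / Real.log 2), by positivity, fun k hk => ?_⟩
  have hk' : (2 : ℝ) ≤ k := by exact_mod_cast hk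
  have hm0 : (0 : ℝ) ≤ m := Nat.cast_nonneg m
  have hlk : Real.log 2 ≤ Real.log k := Real.log_le_log (by norm_num) hk'
  have h1 : ((k + m : ℕ) : ℝ) ≤ (1 + m) * k := by
    push_cast
    nlinarith
  have h0 : (0 : ℝ) < ((k + m : ℕ) : ℝ) := by
    push_cast
    linarith
  have h2 : Real.log ((k + m : ℕ) : ℝ) ≤ (1 + Real.log (1 + m) / Real.log 2) * Real.log k := by
    calc Real.log ((k + m : ℕ) : ℝ) ≤ Real.log ((1 + m) * k) := Real.log_le_log h0 h1
      _ = Real.log (1 + m) + Real.log k := Real.log_mul (by positivity) (by positivity)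
      _ ≤ Real.log (1 + m) / Real.log 2 * Real.log k + Real.log k := by
        have : Real.log (1 + m) = Real.log (1 + m) / Real.log 2 * Real.log 2 := by
          field_simp
        have h3 : Real.log (1 + m) / Real.log 2 * Real.log 2 ≤
            Real.log (1 + m) / Real.log 2 * Real.log k :=
          mul_le_mul_of_nonneg_left hlk (by positivity)
        linarith
      _ = _ := by ring
  have h4 : 0 ≤ Real.log ((k + m : ℕ) : ℝ) := by
    apply Real.log_nonneg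
    push_cast
    linarith
  calc ((k + m : ℕ) : ℝ) * Real.log ((k + m : ℕ) : ℝ)
      ≤ ((1 + m) * k) * ((1 + Real.log (1 + m) / Real.log 2) * Real.log k) :=
        mul_le_mul h1 h2 h4 (by positivity)
    _ = _ := by ring

theorem poly_of_isoPair (c : Conc) (br : BrBound) (run : RunBound) (p0 : GoalP0) (dev : DevBound)
    (p1 : GoalP1) (p2 : GoalP2) (T : TreeData A S D) (T' : TreeData B S' L) (e₀ : D ≃ L)
    {Φ : Bern A → Bern B} {Ψ : Bern B → Bern A} (h : IsoPair S S' Φ Ψ)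
    (hD : 2 ≤ Fintype.card D)
    (hmix : ∀ (s : D) (l : L), (T.inv s = s ∧ T'.inv l ≠ l) ∨ (T.inv s ≠ s ∧ T'.inv l = l)) :
    PolyNonLocal S Φ := by
  have : Nonempty D := by
    rw [← Fintype.card_pos_iff]
    omega
  obtain ⟨α, m, Y, hα, hdep, hν, hG⟩ := exists_sys c T T' e₀ h hmix
  obtain ⟨c0, hc0, hmain⟩ := mainA c.ma1 br run p0 dev p1 p2 A E0 S D T Y hD
  obtain ⟨M, hM, hrad⟩ := radius_bound m
  have hs2 := c.s2 c.ma1 c.ma2 c.s0
  have hq0 : ∀ j, 0 ≤ qj j := fun j => (hs2.2.2 j).1.le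
  have hq1 : ∀ j, qj j ≤ 1 := fun j => (hs2.2.2 j).2.le
  set n : ℝ := ((bl T m).ncard : ℝ) with hn
  have hn0 : 0 ≤ n := Nat.cast_nonneg _
  refine ⟨c0 / ((n + 1) * M ^ 2), by positivity, fun k hk f t hf ht hbf hbt => ?_⟩
  obtain ⟨g1, g2⟩ := c.o8a c.r0 A B S S' D L T T' e₀ α m hα k f t hf ht hbf hbt
  have g3 := c.o8b c.r0 c.o1 c.o2 c.o3 c.o7 c.ma1 c.ma2 c.s0 c.o4 A B S S' D L T T' e₀ Φ Ψ α m h
    hα hdep f t hf ht
  have h1 := hmain (k + m) (by omega) (n * (bern A).real (wrong S Φ f t))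
    (GhA T T' e₀ α m f t) g1 g2 (by
      intro j
      rw [hν, hG]
      exact g3 (qj j) (hq0 j) (hq1 j))
  have hk' : (2 : ℝ) ≤ k := by exact_mod_cast hk
  have hlk : 0 < Real.log k := Real.log_pos (by linarith)
  have hw : 0 ≤ (bern A).real (wrong S Φ f t) := measureReal_nonneg
  have h2 : 0 < ((k + m : ℕ) : ℝ) * Real.log ((k + m : ℕ) : ℝ) := by
    have : (1 : ℝ) < ((k + m : ℕ) : ℝ) := by
      push_cast
      have : (0 : ℝ) ≤ m := Nat.cast_nonneg m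
      linarith
    have h3 := Real.log_pos this
    positivity
  have h3 := hrad k hk
  have h4 : (((k + m : ℕ) : ℝ) * Real.log ((k + m : ℕ) : ℝ)) ^ 2 ≤
      M ^ 2 * (k * Real.log k) ^ 2 := by
    rw [← mul_pow]
    exact pow_le_pow_left₀ h2.le h3 2
  have h5 : c0 / (M ^ 2 * (k * Real.log k) ^ 2) ≤
      c0 / (((k + m : ℕ) : ℝ) * Real.log ((k + m : ℕ) : ℝ)) ^ 2 :=
    div_le_div_of_nonneg_left hc0.le (by positivity) h4
  have h6 : c0 / (M ^ 2 * (k * Real.log k) ^ 2) ≤ (n + 1) * (bern A).real (wrong S Φ f t) := by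
    refine (h5.trans h1).trans ?_
    nlinarith
  have h7 : c0 / ((n + 1) * M ^ 2) / (k * Real.log k) ^ 2 =
      c0 / (M ^ 2 * (k * Real.log k) ^ 2) / (n + 1) := by
    field_simp
  rw [h7, div_le_iff₀ (by positivity)]
  linarith

end

/-- The final theorem from the goals. -/
theorem final (c : Conc) (br : BrBound) (run : RunBound) (p0 : GoalP0) (dev : DevBound)
    (p1 : GoalP1) (p2 : GoalP2) (d : ℕ) (hd : 1 ≤ d) :
    (∀ Φ : Bern (FreeGroup (Fin d)) → Bern (Gam (2 * d)),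
      OrbitIsometry (freeGens d) (gamGens (2 * d)) Φ →
      (∃ X₀ : Set (Bern (FreeGroup (Fin d))), bern (FreeGroup (Fin d)) X₀ᶜ = 0 ∧
        Set.InjOn Φ X₀) → PolyNonLocal (freeGens d) Φ) ∧
    (∀ Ψ : Bern (Gam (2 * d)) → Bern (FreeGroup (Fin d)),
      OrbitIsometry (gamGens (2 * d)) (freeGens d) Ψ →
      (∃ X₀ : Set (Bern (Gam (2 * d))), bern (Gam (2 * d)) X₀ᶜ = 0 ∧
        Set.InjOn Ψ X₀) → PolyNonLocal (gamGens (2 * d)) Ψ) := by
  have c1 : Fintype.card (Fin d × Bool) = 2 * d := by simp [mul_comm]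
  have c2 : Fintype.card (Fin (2 * d)) = 2 * d := by simp
  have hne : ∀ s : Fin d × Bool, (freeTree d).inv s ≠ s := by
    rintro ⟨i, b⟩ h
    have h2 : (!b) = b := congrArg Prod.snd h
    cases b <;> simp at h2
  have : Countable (FreeGroup (Fin d)) := by
    have hinj : Function.Injective (FreeGroup.toWord : FreeGroup (Fin d) → _) :=
      FreeGroup.toWord_injective
    exact hinj.countable
  have e : Fin d × Bool ≃ Fin (2 * d) := Fintype.equivOfCardEq (c1.trans c2.symm)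
  constructor
  · intro Φ hΦ hX
    obtain ⟨Ψ, hΨ⟩ := c.o10 c.r0 c.o1 c.o2 _ _ _ _ _ _ (freeTree d) (gamTree (2 * d)) e Φ hΦ hX
    exact poly_of_isoPair c br run p0 dev p1 p2 (freeTree d) (gamTree (2 * d)) e hΨ (by omega)
      (fun s l => Or.inr ⟨hne s, rfl⟩)
  · intro Ψ hΨ hX
    obtain ⟨Φ, hΦ⟩ := c.o10 c.r0 c.o1 c.o2 _ _ _ _ _ _ (gamTree (2 * d)) (freeTree d) e.symm Ψ
      hΨ hX
    exact poly_of_isoPair c br run p0 dev p1 p2 (gamTree (2 * d)) (freeTree d) e.symm hΦ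
      (by omega) (fun s l => Or.inl ⟨rfl, hne l⟩)

end Pool.Agent.Helper32.OIP
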