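import Pool.Agent.Helper58.Orb.Groups

/-!
Definitions for MP_fc0446_an, polynomial lower bound for the locality of an isometric orbit
equivalence between the Bernoulli shifts of `F_d` and of `(ℤ/2)^{*2d}`.
-/

open MeasureTheory
open scoped ENNReal

namespace Pool.Agent.Helper32.OIP

open Pool.Agent.Helper58.Orb

/-! ### Statement level definitions -/

/-- The set of the points `x` at which the guess `(f, t)` for `Φ` is wrong: `f x` is the guess for
the label `Φ(x)(1)` of `Φ(x)` at the identity, and `t s x` (for `s ∈ S`) the guess for the element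
of `H` which moves `Φ(x)` to `Φ(s · x)`. -/
def wrong {G H : Type} [Group G] [Group H] (S : Set G) (Φ : Bern G → Bern H)
    (f : Bern G → unitInterval) (t : G → Bern G → H) : Set (Bern G) :=
  {x | f x ≠ Φ x 1 ∨ ∃ s ∈ S, Φ (shift s x) ≠ shift (t s x) (Φ x)}

/-- The values of `F` depend only on the coordinates at word length at most `k`. -/
def BallMap {G : Type} [Group G] (S : Set G) (k : ℕ) {α : Type} (F : Bern G → α) : Prop :=
  ∀ x y : Bern G, (∀ g : G, wordLen S g ≤ k → x g = y g) → F x = F y

/-- Polynomial lower bound for the error of local guesses for `Φ`: every measurable guess of radius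
`k ≥ 2` is wrong with probability at least `c / (k log k)²`. -/
def PolyNonLocal {G H : Type} [Group G] [Group H] (S : Set G) (Φ : Bern G → Bern H) : Prop :=
  ∃ c : ℝ, 0 < c ∧ ∀ (k : ℕ), 2 ≤ k → ∀ (f : Bern G → unitInterval) (t : G → Bern G → H),
    Measurable f → (∀ s ∈ S, ∀ h : H, MeasurableSet {x | t s x = h}) →
    BallMap S k f → (∀ s ∈ S, BallMap S k (t s)) →
      c / (k * Real.log k) ^ 2 ≤ (bern G).real (wrong S Φ f t)

/-- `Φ` and `Ψ` are measure-preserving orbit isometries inverse to each other almost everywhere. -/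
structure IsoPair {A B : Type} [Group A] [Group B] (S : Set A) (S' : Set B)
    (Φ : Bern A → Bern B) (Ψ : Bern B → Bern A) : Prop where
  isoL : OrbitIsometry S S' Φ
  isoR : OrbitIsometry S' S Ψ
  left : ∀ᵐ x ∂(bern A), Ψ (Φ x) = x
  right : ∀ᵐ y ∂(bern B), Φ (Ψ y) = y

/-! ### Labellings with general labels -/

section General

variable {A E M : Type}

/-- The shift on `E`-valued labellings of a group. -/
def sh [Group A] (g : A) (z : A → E) : A → E := fun h => z (g⁻¹ * h)

/-- The product measure on `A → E`. -/
noncomputable def pm (A : Type) {E : Type} [MeasurableSpace E] (ν : Measure E) : Measure (A → E) :=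
  Measure.infinitePi fun _ : A => ν

open Classical in
/-- `z` on `T` and `w` off `T`. -/
noncomputable def glue (T : Set A) (z w : A → E) : A → E := fun a => if a ∈ T then z a else w a

/-- Shannon entropy of a finite valued function. -/
noncomputable def Ent {Ω : Type} [MeasurableSpace Ω] [Fintype M] (μ : Measure Ω) (X : Ω → M) : ℝ :=
  ∑ m, Real.negMulLog (μ.real {ω | X ω = m})

/-- Conditional probability of `X = m` given the coordinates `z a`, `a ∈ T`. -/
noncomputable def cp [MeasurableSpace E] (μ : Measure (A → E)) (X : (A → E) → M) (T : Set A)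
    (z : A → E) (m : M) : ℝ := μ.real {w | X (glue T z w) = m}

/-- Conditional entropy of `X` given the coordinates in `T`. -/
noncomputable def hc [MeasurableSpace E] [Fintype M] (μ : Measure (A → E)) (X : (A → E) → M)
    (T : Set A) : ℝ := ∫ z, ∑ m, Real.negMulLog (cp μ X T z m) ∂μ

/-- The average information of `X` revealed by the coordinate `j` when the coordinates are revealed
in a uniformly random order. -/
noncomputable def FX [MeasurableSpace E] [Fintype M] (μ : Measure (A → E)) (X : (A → E) → M)
    (j : A) : ℝ :=
  ∫ U, (hc μ X {i | U i < U j} - hc μ X {i | U i ≤ U j}) ∂(bern A)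

end General

/-! ### Words and branching permutations -/

section Words

variable {A : Type} [Group A] {S : Set A} {D : Type}

/-- The alternating words `1, s, t⁻¹ s, s t⁻¹ s, …`. -/
def gw (T : TreeData A S D) (s t : D) : ℕ → A
  | 0 => 1
  | k + 1 => T.dir (if Even k then s else T.inv t) * gw T s t k

/-- The ball of radius `r`. -/
def bl (T : TreeData A S D) (r : ℕ) : Set A := {a | T.len a ≤ r}

/-- Permutations which are neither the identity nor a transposition. -/
def Br [DecidableEq D] (σ : Equiv.Perm D) : Prop := σ ≠ 1 ∧ ¬ σ.IsSwap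

end Words

/-! ### The abstract system -/

/-- The data used for the main estimate: permutations `π z` of the directions at the root, with
consistency along the edges, an exchange map `J`, and a set `G` which covers the places
where `π ≠ 1`. The measures `pm A (ν j)` are indexed by the noise level `j`. -/
structure Sys {A : Type} [Group A] {S : Set A} {D : Type} [Fintype D] [DecidableEq D]
    (T : TreeData A S D) (E : Type) [MeasurableSpace E] where
  ν : ℕ → Measure E
  prob : ∀ j, IsProbabilityMeasure (ν j)
  π : (A → E) → Equiv.Perm D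
  J : (A → E) → (A → E)
  G : Set (A → E)
  measπ : ∀ σ, MeasurableSet {z | π z = σ}
  measG : MeasurableSet G
  edge : ∀ j, ∀ᵐ z ∂(pm A (ν j)), ∀ s, π (sh (T.dir s) z) (T.inv s) = T.inv (π z s)
  Jmp : ∀ j, MeasurePreserving J (pm A (ν j)) (pm A (ν j))
  Jeq : ∀ j, ∀ᵐ z ∂(pm A (ν j)), ∀ s, J (sh (T.dir s) z) = sh (T.dir (π z s)) (J z)
  cover : ∀ j, ∀ᵐ z ∂(pm A (ν j)), π z ≠ 1 → z ∈ G ∨ J z ∈ G
  small : ∃ j0, ∀ j ≥ j0, (pm A (ν j)).real G ≤ 1 / 512
  pos : ∀ j, 0 < (pm A (ν j)).real {z | π z ≠ 1}
  tend : Filter.Tendsto (fun j => (pm A (ν j)).real {z | π z ≠ 1}) Filter.atTop (nhds 0)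
  doub : ∀ j, (pm A (ν j)).real {z | π z ≠ 1} ≤ 2 * (pm A (ν (j + 1))).real {z | π z ≠ 1}

/-! ### The concrete system -/

section Concrete

variable {A B : Type} [Group A] [Group B] {S : Set A} {S' : Set B} {D L : Type}

open Classical in
/-- The bijection `λ_x` of directions with `Φ (dir s · x) = dir (λ_x s) · Φ x` (if it exists and is
unique). -/
noncomputable def lab (T : TreeData A S D) (T' : TreeData B S' L) (e₀ : D ≃ L)
    (Φ : Bern A → Bern B) (x : Bern A) : D ≃ L :=
  if h : ∃! f : D ≃ L, ∀ s, Φ (shift (T.dir s) x) = shift (T'.dir (f s)) (Φ x) then h.choose else e₀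

open Classical in
/-- The element `g` with `Φ (g · x) = b · Φ x`. -/
noncomputable def psn (Φ : Bern A → Bern B) (x : Bern A) (b : B) : A :=
  if h : ∃! g : A, Φ (shift g x) = shift b (Φ x) then h.choose else 1

/-- Reindexing of labels on the orbit of `x`: the label of the vertex `b · Φ x` of a labelling `w`
is `w b⁻¹`. -/
noncomputable def rd (Φ : Bern A → Bern B) (x : Bern A) (b : B) : A := (psn Φ x b⁻¹)⁻¹

/-- The `X`-labels of a labelling. -/
def fs {C N : Type} (z : C → unitInterval × N) : Bern C := fun a => (z a).1

/-- Extension of `Φ` to labellings with additional labels on the vertices. -/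
noncomputable def Th (Φ : Bern A → Bern B) {N : Type} (z : A → unitInterval × N) :
    B → unitInterval × N := fun b => (Φ (fs z) b, (z (rd Φ (fs z) b)).2)

/-- The noise labels. -/
abbrev Nz : Type := Bool × unitInterval

/-- The label space with noise. -/
abbrev E0 : Type := unitInterval × Nz

/-- The Bernoulli measure on `Bool` with probability `q` for `false`. -/
noncomputable def ber (q : ℝ) : Measure Bool :=
  ENNReal.ofReal q • Measure.dirac false + ENNReal.ofReal (1 - q) • Measure.dirac true

/-- The noise measure: resampling with probability `1 - q`. -/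
noncomputable def nz (q : ℝ) : Measure Nz := (ber q).prod volume

/-- The measure on labels with noise. -/
noncomputable def nu (q : ℝ) : Measure E0 := (volume : Measure unitInterval).prod (nz q)

/-- The exchange of the label with the new label, if it is resampled. -/
def jn (e : E0) : E0 := if e.2.1 then (e.2.2, (true, e.1)) else e

/-- The exchange map on labellings. -/
def Jb {C : Type} (z : C → E0) : C → E0 := fun b => jn (z b)

/-- Probability that `κ` changes when the coordinates are resampled with probability `1 - q`. -/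
noncomputable def dl {C K : Type} (κ : Bern C → K) (q : ℝ) : ℝ :=
  (pm C (nu q)).real {z | κ (fs z) ≠ κ (fs (Jb z))}

/-- The noise levels `q_j = (1/2)^(2^(-j))`. -/
noncomputable def qj (j : ℕ) : ℝ := (1 / 2 : ℝ) ^ ((1 / 2 : ℝ) ^ j)

/-- The concrete `J`. -/
noncomputable def JA (Φ : Bern A → Bern B) (Ψ : Bern B → Bern A) (z : A → E0) : A → E0 :=
  Th Ψ (Jb (Th Φ z))

/-- The concrete `π`. -/
noncomputable def PiA (T : TreeData A S D) (T' : TreeData B S' L) (e₀ : D ≃ L)
    (Φ : Bern A → Bern B) (Ψ : Bern B → Bern A) (z : A → E0) : Equiv.Perm D :=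
  (lab T T' e₀ Φ (fs z)).trans (lab T' T e₀.symm Ψ (fs (Jb (Th Φ z))))

/-- The concrete `G`, for a local approximation `α` of the structure map of `Ψ`. -/
def GA (T : TreeData A S D) (T' : TreeData B S' L) (e₀ : D ≃ L)
    (Φ : Bern A → Bern B) (Ψ : Bern B → Bern A) (α : Bern B → (L ≃ D)) (m : ℕ) : Set (A → E0) :=
  {z | lab T' T e₀.symm Ψ (Φ (fs z)) ≠ α (Φ (fs z)) ∨ ∃ a ∈ bl T m, (z a).2.1 = true}

open Classical in
/-- A shortest list of directions with product `b⁻¹`. -/
noncomputable def lsOf (T' : TreeData B S' L) (b : B) : List L :=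
  if h : ∃ l : List L, (l.map T'.dir).prod = b⁻¹ ∧ l.length = T'.len b then h.choose else []

/-- The position reached by following the target directions of a list, if the target structure is
described by the data `d`. -/
def ppos (T : TreeData A S D) (d : A → unitInterval × (D ≃ L)) : List L → A
  | [] => 1
  | l :: ls => T.dir ((d (ppos T d ls)).2.symm l) * ppos T d ls

/-- The labelling in the ball of radius `m` described by the data `d`. -/
noncomputable def Yd (T : TreeData A S D) (T' : TreeData B S' L) (m : ℕ)
    (d : A → unitInterval × (D ≃ L)) (b : B) : unitInterval :=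
  if T'.len b ≤ m then (d (ppos T d (lsOf T' b))).1 else 0

open Classical in
/-- The bijection of directions given by the guess `t`. -/
noncomputable def tg (T : TreeData A S D) (T' : TreeData B S' L) (e₀ : D ≃ L)
    (t : A → Bern A → B) (x : Bern A) : D ≃ L :=
  if h : ∃ f : D ≃ L, ∀ s, T'.dir (f s) = t (T.dir s) x then h.choose else e₀

/-- The data given by the guess `(f, t)`. -/
noncomputable def dg (T : TreeData A S D) (T' : TreeData B S' L) (e₀ : D ≃ L)
    (f : Bern A → unitInterval) (t : A → Bern A → B) (x : Bern A) (g : A) :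
    unitInterval × (D ≃ L) :=
  (f (shift g x), tg T T' e₀ t (shift g x))

/-- The local version of `GA` given by the guess `(f, t)`. -/
def GhA (T : TreeData A S D) (T' : TreeData B S' L) (e₀ : D ≃ L) (α : Bern B → (L ≃ D)) (m : ℕ)
    (f : Bern A → unitInterval) (t : A → Bern A → B) : Set (A → E0) :=
  {z | (tg T T' e₀ t (fs z)).symm ≠ α (Yd T T' m (dg T T' e₀ f t (fs z))) ∨
    ∃ a ∈ bl T m, (z a).2.1 = true}

end Concrete

end Pool.Agent.Helper32.OIP
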