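import Pool.Agent.Helper32.OIP.Goals

/-!
# `Th Φ` preserves the measure
-/

open MeasureTheory
open scoped ENNReal

namespace Pool.Agent.Helper32.OIP

open Pool.Agent.Helper58.Orb

theorem pm_prob (A : Type) {E : Type} [MeasurableSpace E] (ν : Measure E) [IsProbabilityMeasure ν] :
    IsProbabilityMeasure (pm A ν) := by
  unfold pm; infer_instance

theorem o4 : GoalO4 := by
  intro ma1 ma2 A B N _ _ _ _ _ ν _ Φ hΦ hbij hmeas
  have h1 := ma2.2.1 A unitInterval N (volume : Measure unitInterval) ν
  have h2 := ma2.1 B unitInterval N (volume : Measure unitInterval) ν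
  have hp1 : IsProbabilityMeasure (pm A (volume : Measure unitInterval)) := pm_prob _ _
  have hp2 : IsProbabilityMeasure (pm A ν) := pm_prob _ _
  have hΦ' : MeasurePreserving Φ (pm A (volume : Measure unitInterval))
      (pm B (volume : Measure unitInterval)) := hΦ
  have hgm : Measurable (Function.uncurry fun (x : A → unitInterval) (ω : A → N) (b : B) =>
      ω (rd Φ x b)) := by
    rw [measurable_pi_iff]
    intro b
    intro U hU
    have : (fun p : (A → unitInterval) × (A → N) =>
        Function.uncurry (fun (x : A → unitInterval) (ω : A → N) (b : B) => ω (rd Φ x b)) p b) ⁻¹' U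
        = ⋃ g : A, ({x | rd Φ x b = g} ×ˢ {ω : A → N | ω g ∈ U}) := by
      ext ⟨x, ω⟩
      simp [Function.uncurry]
    rw [this]
    refine MeasurableSet.iUnion fun g => (hmeas b g).prod ?_
    exact measurable_pi_apply g hU
  have hsk := hΦ'.skew_product (μc := pm A ν) (μd := pm B ν) hgm (by
    have hb' : ∀ᵐ x ∂(pm A (volume : Measure unitInterval)), Function.Bijective (rd Φ x) := hbij
    filter_upwards [hb'] with x hx
    exact (ma1.2.1 A B N ν (rd Φ x) hx).map_eq)
  exact h2.comp (hsk.comp h1)

end Pool.Agent.Helper32.OIP
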